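import Pool.Agent.Lib.MP_3fc9e2_pr.Grid

set_option autoImplicit false

open MeasureTheory Filter Topology Set Finset
open scoped NNReal ENNReal

namespace Pool.Agent.Lib.MP_3fc9e2_pr

/-- coefficients of the first integrand -/
noncomputable def c₁ (k : ℕ) : ℝ := 2 * Real.pi * 4 ^ k

/-- coefficients of the second integrand -/
noncomputable def c₂ (k : ℕ) : ℝ := 2 * Real.pi * 4 ^ k + if k = 0 then Real.pi / 2 else 0

lemma c₁_nonneg (k : ℕ) : 0 ≤ c₁ k := by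
  unfold c₁; have := Real.pi_pos; positivity

lemma c₂_nonneg (k : ℕ) : 0 ≤ c₂ k := by
  unfold c₂; have := Real.pi_pos
  split_ifs <;> positivity

lemma c₁_le_c₂ (k : ℕ) : c₁ k ≤ c₂ k := by
  unfold c₁ c₂; have := Real.pi_pos
  split_ifs <;> linarith

/-- The drift `A(t) = ∫₀ᵗ (K + π/2)`. -/
noncomputable def A (T t : ℝ≥0) : ℝ := J c₂ T t (fun s ↦ (s : ℝ)) t

/-- The difference process `X = 1 - A + (π/2) w`. -/
noncomputable def X (T : ℝ≥0) (w : ℝ≥0 → ℝ) (t : ℝ≥0) : ℝ := 1 - A T t + Real.pi / 2 * w t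

/-- The same with the first `n` coefficients only. -/
noncomputable def Xn (n : ℕ) (T : ℝ≥0) (w : ℝ≥0 → ℝ) (t : ℝ≥0) : ℝ :=
  1 - (∑ k ∈ range n, c₂ k * ((t : ℝ) - ((min t (u T k) : ℝ≥0) : ℝ))) + Real.pi / 2 * w t

lemma X_eq_Xn {T t : ℝ≥0} (w : ℝ≥0 → ℝ) (hT : 0 < T) {n : ℕ} (hn : t ≤ u T n) :
    X T w t = Xn n T w t := by
  have ht : t < T := lt_of_le_of_lt hn (u_lt hT n)
  unfold X A Xn
  rw [J_eq ht _ _ (NN_le_of_le hn)]
  simp only [min_self]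

lemma continuous_Xn (n : ℕ) (T : ℝ≥0) {w : ℝ≥0 → ℝ} (hw : Continuous w) :
    Continuous (Xn n T w) := by
  unfold Xn
  fun_prop

lemma Xn_u_le {T : ℝ≥0} (w : ℝ≥0 → ℝ) {n : ℕ} (hn : 1 ≤ n) :
    Xn n T w (u T n) ≤ 1 - Real.pi / 2 * (T * 2 ^ n) + Real.pi / 2 * w (u T n) := by
  obtain ⟨m, rfl⟩ : ∃ m, n = m + 1 := ⟨n - 1, by omega⟩
  unfold Xn
  have h1 : Real.pi / 2 * (T * 2 ^ (m + 1))
      ≤ ∑ k ∈ range (m + 1), c₂ k * ((u T (m + 1) : ℝ) -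
        ((min (u T (m + 1)) (u T k) : ℝ≥0) : ℝ)) := by
    have h2 : c₂ m * ((u T (m + 1) : ℝ) - ((min (u T (m + 1)) (u T m) : ℝ≥0) : ℝ))
        ≤ ∑ k ∈ range (m + 1), c₂ k * ((u T (m + 1) : ℝ) -
        ((min (u T (m + 1)) (u T k) : ℝ≥0) : ℝ)) := by
      refine Finset.single_le_sum (f := fun k ↦ c₂ k * ((u T (m + 1) : ℝ) -
        ((min (u T (m + 1)) (u T k) : ℝ≥0) : ℝ))) ?_ (Finset.self_mem_range_succ m)
      intro k _
      refine mul_nonneg (c₂_nonneg k) ?_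
      rw [sub_nonneg]
      exact_mod_cast min_le_left _ _
    refine le_trans ?_ h2
    rw [min_eq_right (u_mono T (Nat.le_succ m)), u_succ_sub]
    have h3 : c₁ m * ((T : ℝ) / 2 ^ (m + 1)) ≤ c₂ m * ((T : ℝ) / 2 ^ (m + 1)) := by
      apply mul_le_mul_of_nonneg_right (c₁_le_c₂ m)
      have := T.2
      positivity
    refine le_trans (le_of_eq ?_) h3
    unfold c₁
    have h4 : (4 : ℝ) ^ m = 2 ^ m * 2 ^ m := by
      rw [← mul_pow]; norm_num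
    rw [h4, pow_succ]
    field_simp
  linarith

/-- First time at which `X` is at most `0`. -/
noncomputable def tau (T : ℝ≥0) (w : ℝ≥0 → ℝ) : ℝ≥0 := sInf {t | t < T ∧ X T w t ≤ 0}

lemma exists_bound {w : ℝ≥0 → ℝ} (hw : Continuous w) (T : ℝ≥0) :
    ∃ M : ℝ, ∀ t ≤ T, |w t| ≤ M := by
  have h : IsCompact (Icc (0 : ℝ≥0) T) := isCompact_Icc
  obtain ⟨M, hM⟩ := h.exists_bound_of_continuousOn hw.continuousOn
  exact ⟨M, fun t ht ↦ hM t ⟨zero_le, ht⟩⟩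

lemma exists_X_u_nonpos {T : ℝ≥0} (hT : 0 < T) {w : ℝ≥0 → ℝ} (hw : Continuous w) :
    ∃ n, X T w (u T n) ≤ 0 := by
  obtain ⟨M, hM⟩ := exists_bound hw T
  have hT' : (0 : ℝ) < T := by exact_mod_cast hT
  obtain ⟨n, hn⟩ := pow_unbounded_of_one_lt ((1 + M) / T) (show (1 : ℝ) < 2 by norm_num)
  refine ⟨n + 1, ?_⟩
  rw [X_eq_Xn w hT le_rfl]
  refine (Xn_u_le w (by omega)).trans ?_
  have h1 : w (u T (n + 1)) ≤ M := (le_abs_self _).trans (hM _ (u_lt hT _).le)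
  rw [div_lt_iff₀ hT'] at hn
  have h2 : (1 : ℝ) + M ≤ T * 2 ^ (n + 1) := by
    have : (T : ℝ) * 2 ^ n ≤ T * 2 ^ (n + 1) := by
      apply mul_le_mul_of_nonneg_left _ hT'.le
      exact pow_le_pow_right₀ (by norm_num) (by omega)
    linarith
  have h3 : (1 : ℝ) ≤ Real.pi / 2 := by
    have := Real.pi_gt_three; linarith
  have h4 : (1 : ℝ) ≤ T * 2 ^ (n + 1) - w (u T (n + 1)) := by linarith
  nlinarith

lemma tau_le {T t : ℝ≥0} {w : ℝ≥0 → ℝ} (ht : t < T) (h : X T w t ≤ 0) : tau T w ≤ t :=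
  csInf_le (OrderBot.bddBelow _) ⟨ht, h⟩

lemma tau_lt {T : ℝ≥0} (hT : 0 < T) {w : ℝ≥0 → ℝ} (hw : Continuous w) : tau T w < T := by
  obtain ⟨n, hn⟩ := exists_X_u_nonpos hT hw
  exact lt_of_le_of_lt (tau_le (u_lt hT n) hn) (u_lt hT n)

lemma X_pos_of_lt_tau {T t : ℝ≥0} (hT : 0 < T) {w : ℝ≥0 → ℝ} (hw : Continuous w)
    (h : t < tau T w) : 0 < X T w t := by
  by_contra hc
  exact absurd (tau_le (h.trans (tau_lt hT hw)) (not_lt.1 hc)) (not_le.2 h)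

lemma X_tau_nonpos {T : ℝ≥0} (hT : 0 < T) {w : ℝ≥0 → ℝ} (hw : Continuous w) :
    X T w (tau T w) ≤ 0 := by
  obtain ⟨n, hn⟩ := exists_X_u_nonpos hT hw
  set S : Set ℝ≥0 := {t | t ≤ u T n ∧ Xn n T w t ≤ 0} with hS
  have hSc : IsClosed S := by
    have h1 : IsClosed {t : ℝ≥0 | t ≤ u T n} := isClosed_Iic
    have h2 : IsClosed {t : ℝ≥0 | Xn n T w t ≤ 0} :=
      isClosed_le (continuous_Xn n T hw) continuous_const
    exact h1.inter h2
  have hSne : S.Nonempty := ⟨u T n, le_rfl, by rwa [← X_eq_Xn w hT le_rfl]⟩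
  have hmem : sInf S ∈ S := hSc.csInf_mem hSne (OrderBot.bddBelow _)
  have heq : tau T w = sInf S := by
    apply le_antisymm
    · apply tau_le (lt_of_le_of_lt hmem.1 (u_lt hT n))
      rw [X_eq_Xn w hT hmem.1]
      exact hmem.2
    · refine le_csInf (⟨u T n, u_lt hT n, hn⟩ : {t | t < T ∧ X T w t ≤ 0}.Nonempty) ?_
      rintro t ⟨ht, hXt⟩
      by_cases h : t ≤ u T n
      · exact csInf_le (OrderBot.bddBelow _) ⟨h, by rwa [← X_eq_Xn w hT h]⟩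
      · exact hmem.1.trans (not_le.1 h).le
  rw [heq, X_eq_Xn w hT hmem.1]
  exact hmem.2

lemma X_zero {T : ℝ≥0} (hT : 0 < T) {w : ℝ≥0 → ℝ} (h0 : w 0 = 0) : X T w 0 = 1 := by
  rw [X_eq_Xn w hT (n := 0) (by simp)]
  simp [Xn, h0]

lemma tau_pos {T : ℝ≥0} (hT : 0 < T) {w : ℝ≥0 → ℝ} (hw : Continuous w) (h0 : w 0 = 0) :
    0 < tau T w := by
  rw [pos_iff_ne_zero]
  intro h
  have := X_tau_nonpos hT hw
  rw [h, X_zero hT h0] at this
  linarith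

lemma X_tau {T : ℝ≥0} (hT : 0 < T) {w : ℝ≥0 → ℝ} (hw : Continuous w) (h0 : w 0 = 0) :
    X T w (tau T w) = 0 := by
  refine le_antisymm (X_tau_nonpos hT hw) ?_
  obtain ⟨n, hn⟩ := exists_le_u (tau_lt hT hw)
  rw [X_eq_Xn w hT hn]
  have h1 : Tendsto (Xn n T w) (𝓝[<] (tau T w)) (𝓝 (Xn n T w (tau T w))) :=
    ((continuous_Xn n T hw).tendsto _).mono_left nhdsWithin_le_nhds
  have hne : (𝓝[<] (tau T w)).NeBot := by
    rw [← mem_closure_iff_nhdsWithin_neBot, closure_Iio' (a := tau T w) ⟨0, tau_pos hT hw h0⟩]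
    exact Set.mem_Iic.2 le_rfl
  refine ge_of_tendsto h1 ?_
  filter_upwards [self_mem_nhdsWithin] with t ht
  have ht' : t < tau T w := ht
  rw [← X_eq_Xn w hT (ht'.le.trans hn)]
  exact (X_pos_of_lt_tau hT hw ht').le

lemma pow_NN_le {T : ℝ≥0} (hT : 0 < T) {w : ℝ≥0 → ℝ} (hw : Continuous w) {M : ℝ}
    (hM : ∀ t ≤ T, |w t| ≤ M) : (T : ℝ) * 2 ^ (NN T (tau T w)) ≤ 2 * (T + 1 + M) := by
  have hT' : (0 : ℝ) < T := by exact_mod_cast hT
  have hM0 : 0 ≤ M := (abs_nonneg _).trans (hM 0 zero_le)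
  rcases Nat.lt_or_ge (NN T (tau T w)) 2 with h | h
  · have h2 : (2 : ℝ) ^ (NN T (tau T w)) ≤ 2 ^ 1 :=
      pow_le_pow_right₀ (by norm_num) (by omega)
    nlinarith
  · obtain ⟨m, hm⟩ : ∃ m, NN T (tau T w) = m + 1 := ⟨NN T (tau T w) - 1, by omega⟩
    have h1 : u T m < tau T w := u_lt_of_lt_NN (by omega)
    have h2 := X_pos_of_lt_tau hT hw h1
    rw [X_eq_Xn w hT le_rfl] at h2
    have h3 := Xn_u_le w (T := T) (n := m) (by omega)
    have h4 : w (u T m) ≤ M := (le_abs_self _).trans (hM _ (u_lt hT _).le)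
    have h5 : (1 : ℝ) ≤ Real.pi / 2 := by
      have := Real.pi_gt_three; linarith
    have h6 : (T : ℝ) * 2 ^ m ≤ 1 + M := by
      by_contra hc
      rw [not_le] at hc
      have : (1 : ℝ) < T * 2 ^ m - w (u T m) := by linarith
      nlinarith
    rw [hm, pow_succ]
    linarith

lemma sum_c₁_le (n : ℕ) : ∑ k ∈ range n, c₁ k ≤ Real.pi * (2 ^ n) ^ 2 := by
  have hpi := Real.pi_pos
  induction n with
  | zero => simp; positivity
  | succ n ih =>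
    rw [Finset.sum_range_succ]
    have h4 : (4 : ℝ) ^ n = (2 ^ n) ^ 2 := by
      rw [← pow_mul, mul_comm, pow_mul]; norm_num
    have : c₁ n = 2 * Real.pi * (2 ^ n) ^ 2 := by rw [c₁, h4]
    have h8 : (2 : ℝ) ^ (n + 1) = 2 * 2 ^ n := by ring
    rw [this, h8]
    have h5 : (0 : ℝ) < 2 ^ n := by positivity
    nlinarith

lemma sum_c₂_le (n : ℕ) : ∑ k ∈ range n, c₂ k ≤ 2 * Real.pi * (2 ^ n) ^ 2 := by
  have hpi := Real.pi_pos
  induction n with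
  | zero => simp; positivity
  | succ n ih =>
    rw [Finset.sum_range_succ]
    have h4 : (4 : ℝ) ^ n = (2 ^ n) ^ 2 := by
      rw [← pow_mul, mul_comm, pow_mul]; norm_num
    have h6 : (1 : ℝ) ≤ 2 ^ n := one_le_pow₀ (by norm_num)
    have h7 : (1 : ℝ) ≤ (2 ^ n) ^ 2 := one_le_pow₀ h6
    have : c₂ n ≤ 2 * Real.pi * (2 ^ n) ^ 2 + Real.pi / 2 * (2 ^ n) ^ 2 := by
      rw [c₂, h4]
      split_ifs
      · nlinarith
      · nlinarith
    have h8 : (2 : ℝ) ^ (n + 1) = 2 * 2 ^ n := by ring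
    rw [h8]
    have h5 : (0 : ℝ) < 2 ^ n := by positivity
    nlinarith

/-- The polynomial bound for both stochastic integrals. -/
lemma abs_J_tau_le {T : ℝ≥0} (hT : 0 < T) {w : ℝ≥0 → ℝ} (hw : Continuous w) {M : ℝ}
    (hM : ∀ t ≤ T, |w t| ≤ M) {c : ℕ → ℝ} (hc : ∀ k, 0 ≤ c k)
    (hcs : ∀ n, ∑ k ∈ range n, c k ≤ 2 * Real.pi * (2 ^ n) ^ 2) (w' : ℝ≥0 → ℝ) {M' : ℝ}
    (hM' : ∀ t ≤ T, |w' t| ≤ M') (t : ℝ≥0) :
    |J c T (tau T w) w' t| ≤ 2 * Real.pi * (2 * (T + 1 + M) / T) ^ 2 * (2 * M') := by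
  have hT' : (0 : ℝ) < T := by exact_mod_cast hT
  have hM0 : 0 ≤ M' := (abs_nonneg _).trans (hM' 0 zero_le)
  refine (abs_J_le hc (tau_lt hT hw).le hM' t).trans ?_
  refine mul_le_mul_of_nonneg_right ?_ (by positivity)
  refine (hcs _).trans ?_
  have hpi := Real.pi_pos
  refine mul_le_mul_of_nonneg_left ?_ (by positivity)
  refine pow_le_pow_left₀ (by positivity) ?_ 2
  rw [le_div_iff₀ hT', mul_comm]
  exact pow_NN_le hT hw hM

end Pool.Agent.Lib.MP_3fc9e2_pr
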