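import Pool.Agent.Lib.MP_3fc9e2_pr.Defs
import Pool.Agent.Lib.MP_3fc9e2_pr.Tau

set_option autoImplicit false

open MeasureTheory ProbabilityTheory Filter Topology Set Finset
open scoped NNReal ENNReal

namespace Pool.Agent.Lib.MP_3fc9e2_pr

/-- Telescoping along a grid, stopped at the first grid point after `τ`. -/
lemma telescope (a : ℕ → ℝ≥0) (ha : Monotone a) (τ δ : ℝ≥0) (n : ℕ)
    (hδ : ∀ i < n, a (i + 1) ≤ a i + δ) :
    ∃ ρ : ℝ≥0, a 0 ≤ ρ ∧ ρ ≤ a n ∧ (ρ = a n ∨ τ ≤ ρ) ∧ ρ ≤ max τ (a 0) + δ ∧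
      ∀ f : ℝ≥0 → ℝ, ∑ i ∈ range n, (if a i < τ then f (a (i + 1)) - f (a i) else 0)
        = f ρ - f (a 0) := by
  induction n with
  | zero => exact ⟨a 0, le_rfl, le_rfl, Or.inl rfl, (le_max_right _ _).trans le_self_add,
      fun f ↦ by simp⟩
  | succ n ih =>
    obtain ⟨ρ, h1, h2, h3, h4, h5⟩ := ih (fun i hi ↦ hδ i (by omega))
    by_cases h : a n < τ
    · have hρ : ρ = a n := by
        rcases h3 with h3 | h3
        · exact h3
        · exact absurd (h3.trans h2) (not_le.2 h)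
      refine ⟨a (n + 1), ha (Nat.zero_le _), le_rfl, Or.inl rfl, ?_, ?_⟩
      · refine (hδ n (by omega)).trans ?_
        gcongr
        exact h.le.trans (le_max_left _ _)
      · intro f
        rw [Finset.sum_range_succ, h5 f, if_pos h, hρ]
        ring
    · refine ⟨ρ, h1, h2.trans (ha (Nat.le_succ n)), ?_, h4, ?_⟩
      · right
        rcases h3 with h3 | h3
        · rw [h3]; exact not_lt.1 h
        · exact h3
      · intro f
        rw [Finset.sum_range_succ, h5 f, if_neg h, add_zero]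

/-- Grid points `max (i T / (m+1)) (u k)`. -/
noncomputable def gp (T : ℝ≥0) (m k i : ℕ) : ℝ≥0 := max ((i : ℝ≥0) * (T / (m + 1))) (u T k)

lemma gp_mono (T : ℝ≥0) (m k : ℕ) : Monotone (gp T m k) := by
  intro i j hij
  unfold gp
  gcongr

lemma gp_zero (T : ℝ≥0) (m k : ℕ) : gp T m k 0 = u T k := by
  unfold gp; simp

lemma gp_last {T : ℝ≥0} (hT : 0 < T) (m k : ℕ) : gp T m k (m + 1) = T := by
  unfold gp
  have : ((m + 1 : ℕ) : ℝ≥0) * (T / (m + 1)) = T := by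
    push_cast
    field_simp
  rw [this]
  exact max_eq_left (u_lt hT k).le

lemma gp_succ_le (T : ℝ≥0) (m k i : ℕ) : gp T m k (i + 1) ≤ gp T m k i + T / (m + 1) := by
  unfold gp
  apply max_le
  · push_cast
    rw [add_mul, one_mul]
    gcongr
    exact le_max_left _ _
  · exact (le_max_right _ _).trans le_self_add

/-- The stopped grid point attached to `τ`. -/
lemma exists_rho {T : ℝ≥0} (hT : 0 < T) (m k : ℕ) {τ : ℝ≥0} (hτ : τ ≤ T) :
    ∃ ρ : ℝ≥0, (τ ≤ u T k → ρ = u T k) ∧ (u T k < τ → τ ≤ ρ ∧ ρ ≤ τ + T / (m + 1)) ∧ ρ ≤ T ∧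
      ∀ f : ℝ≥0 → ℝ, ∑ i ∈ range (m + 1), (if gp T m k i < τ then
        f (gp T m k (i + 1)) - f (gp T m k i) else 0) = f ρ - f (u T k) := by
  obtain ⟨ρ, h1, h2, h3, h4, h5⟩ := telescope (gp T m k) (gp_mono T m k) τ (T / (m + 1)) (m + 1)
    (fun i _ ↦ gp_succ_le T m k i)
  rw [gp_zero] at h1 h4
  rw [gp_last hT] at h2 h3
  have h6 : τ ≤ ρ := by
    rcases h3 with h3 | h3
    · rw [h3]; exact hτ
    · exact h3
  refine ⟨ρ, ?_, ?_, h2, ?_⟩
  · intro h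
    have h7 := h5 (fun t ↦ (t : ℝ))
    rw [gp_zero, Finset.sum_eq_zero] at h7
    · rw [← NNReal.coe_inj]; linarith
    · intro i _
      rw [if_neg]
      rw [not_lt]
      exact h.trans (le_max_right _ _)
  · intro h
    rw [max_eq_left h.le] at h4
    exact ⟨h6, h4⟩
  · intro f
    rw [h5 f, gp_zero]

lemma ite_le_sub {a b s : ℝ≥0} (hab : a ≤ b) (x : ℝ) :
    (Ioc a b).indicator (fun _ ↦ x) s
      = x * ((if s ≤ b then 1 else 0) - (if s ≤ a then 1 else 0)) := by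
  by_cases h1 : s ≤ a
  · rw [indicator_of_notMem (fun h ↦ absurd h.1 (not_lt.2 h1)), if_pos h1, if_pos (h1.trans hab)]
    ring
  · by_cases h2 : s ≤ b
    · rw [indicator_of_mem (show s ∈ Set.Ioc a b from ⟨not_le.1 h1, h2⟩), if_neg h1, if_pos h2]
      ring
    · rw [indicator_of_notMem (fun h ↦ absurd h.2 h2), if_neg h1, if_neg h2]; ring

variable {Ω : Type*} {mΩ : MeasurableSpace Ω} {d : ℕ}

/-- The unit vector of the chosen coordinate. -/
noncomputable def e (i₀ : Fin d) : EuclideanSpace ℝ (Fin d) := EuclideanSpace.single i₀ 1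

lemma norm_smul_e (i₀ : Fin d) (x : ℝ) : ‖x • e i₀‖ = |x| := by
  rw [norm_smul, e, EuclideanSpace.norm_single]
  simp

lemma inner_smul_e (i₀ : Fin d) (x : ℝ) (v : EuclideanSpace ℝ (Fin d)) :
    inner ℝ (x • e i₀) v = x * v i₀ := by
  rw [real_inner_smul_left, e, EuclideanSpace.inner_single_left]
  simp

/-- The approximating simple integrands. -/
noncomputable def Hm {ℱ : Filtration ℝ≥0 mΩ} (i₀ : Fin d) (c : ℕ → ℝ) (T : ℝ≥0) (τ : Ω → ℝ≥0)
    (hτ : ∀ a : ℝ≥0, MeasurableSet[ℱ a] {ω | a < τ ω}) (m : ℕ) : SimpleIntegrand ℱ d where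
  ι := Fin m × Fin (m + 1)
  fintype := inferInstance
  a := fun i ↦ gp T m i.1 i.2
  b := fun i ↦ gp T m i.1 (i.2 + 1)
  a_le_b := fun i ↦ gp_mono T m i.1 (Nat.le_succ _)
  h := fun i ω ↦ if gp T m i.1 i.2 < τ ω then c i.1 • e i₀ else 0
  measurable_h := fun i ↦ Measurable.ite (hτ _) measurable_const measurable_const
  bounded_h := by
    refine ⟨∑ k ∈ range m, |c k|, fun i ω ↦ ?_⟩
    split_ifs
    · rw [norm_smul_e]
      exact Finset.single_le_sum (f := fun k ↦ |c k|) (fun k _ ↦ abs_nonneg _)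
        (Finset.mem_range.2 i.1.2)
    · rw [norm_zero]
      exact Finset.sum_nonneg fun k _ ↦ abs_nonneg _

lemma sum_fin_prod (m n : ℕ) (g : ℕ → ℕ → ℝ) :
    ∑ i : Fin m × Fin n, g i.1 i.2 = ∑ k ∈ range m, ∑ i ∈ range n, g k i := by
  rw [Fintype.sum_prod_type, ← Fin.sum_univ_eq_sum_range (fun k ↦ ∑ i ∈ range n, g k i)]
  refine Finset.sum_congr rfl fun k _ ↦ ?_
  rw [← Fin.sum_univ_eq_sum_range (fun i ↦ g k i)]

lemma Hm_process {ℱ : Filtration ℝ≥0 mΩ} (i₀ : Fin d) (c : ℕ → ℝ) {T : ℝ≥0} {τ : Ω → ℝ≥0}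
    (hτ : ∀ a : ℝ≥0, MeasurableSet[ℱ a] {ω | a < τ ω}) (m : ℕ) (ω : Ω) (ρ : ℕ → ℝ≥0)
    (hρ : ∀ k < m, ∀ f : ℝ≥0 → ℝ, ∑ i ∈ range (m + 1), (if gp T m k i < τ ω then
        f (gp T m k (i + 1)) - f (gp T m k i) else 0) = f (ρ k) - f (u T k)) (s : ℝ≥0) :
    (Hm (ℱ := ℱ) i₀ c T τ hτ m).process s ω =
      (∑ k ∈ range m, c k * ((if s ≤ ρ k then 1 else 0) - (if s ≤ u T k then 1 else 0)) : ℝ) •
        e i₀ := by
  have h1 : (Hm (ℱ := ℱ) i₀ c T τ hτ m).process s ω =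
      ∑ i : Fin m × Fin (m + 1), ((if gp T m i.1 i.2 < τ ω then
        c i.1 * ((if s ≤ gp T m i.1 (i.2 + 1) then 1 else 0) -
          (if s ≤ gp T m i.1 i.2 then 1 else 0)) else 0 : ℝ) • e i₀) := by
    unfold SimpleIntegrand.process
    refine Finset.sum_congr rfl fun i _ ↦ ?_
    show (Ioc (gp T m i.1 i.2) (gp T m i.1 (i.2 + 1))).indicator
      (fun _ ↦ if gp T m i.1 i.2 < τ ω then c i.1 • e i₀ else 0) s = _
    by_cases h : gp T m i.1 i.2 < τ ω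
    · simp only [if_pos h]
      rw [← ite_le_sub (gp_mono T m i.1 (Nat.le_succ _))]
      by_cases hs : s ∈ Ioc (gp T m i.1 i.2) (gp T m i.1 (i.2 + 1))
      · rw [indicator_of_mem hs, indicator_of_mem hs]
      · rw [indicator_of_notMem hs, indicator_of_notMem hs, zero_smul]
    · simp only [if_neg h]
      rw [zero_smul]
      exact indicator_apply_eq_zero.2 fun _ ↦ rfl
  rw [h1, ← Finset.sum_smul]
  congr 1
  rw [sum_fin_prod m (m + 1) (fun k i ↦ (if gp T m k i < τ ω then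
        c k * ((if s ≤ gp T m k (i + 1) then 1 else 0) -
          (if s ≤ gp T m k i then 1 else 0)) else 0 : ℝ))]
  refine Finset.sum_congr rfl fun k hk ↦ ?_
  rw [← hρ k (Finset.mem_range.1 hk) (fun a ↦ if s ≤ a then 1 else 0), Finset.mul_sum]
  refine Finset.sum_congr rfl fun i _ ↦ ?_
  split_ifs <;> simp

lemma Hm_integral {ℱ : Filtration ℝ≥0 mΩ} (i₀ : Fin d) (c : ℕ → ℝ) {T : ℝ≥0} {τ : Ω → ℝ≥0}
    (hτ : ∀ a : ℝ≥0, MeasurableSet[ℱ a] {ω | a < τ ω}) (m : ℕ) (ω : Ω) (ρ : ℕ → ℝ≥0)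
    (hρ : ∀ k < m, ∀ f : ℝ≥0 → ℝ, ∑ i ∈ range (m + 1), (if gp T m k i < τ ω then
        f (gp T m k (i + 1)) - f (gp T m k i) else 0) = f (ρ k) - f (u T k))
    (B : ℝ≥0 → Ω → EuclideanSpace ℝ (Fin d)) (t : ℝ≥0) :
    (Hm (ℱ := ℱ) i₀ c T τ hτ m).integral B t ω =
      ∑ k ∈ range m, c k * (B (min t (ρ k)) ω i₀ - B (min t (u T k)) ω i₀) := by
  have h1 : (Hm (ℱ := ℱ) i₀ c T τ hτ m).integral B t ω =
      ∑ i : Fin m × Fin (m + 1), (if gp T m i.1 i.2 < τ ω then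
        c i.1 * (B (min t (gp T m i.1 (i.2 + 1))) ω i₀ -
          B (min t (gp T m i.1 i.2)) ω i₀) else 0 : ℝ) := by
    unfold SimpleIntegrand.integral
    refine Finset.sum_congr rfl fun i _ ↦ ?_
    show inner ℝ (if gp T m i.1 i.2 < τ ω then c i.1 • e i₀ else 0)
      (B (min t (gp T m i.1 (i.2 + 1))) ω - B (min t (gp T m i.1 i.2)) ω) = _
    by_cases h : gp T m i.1 i.2 < τ ω
    · simp only [if_pos h]
      rw [inner_smul_e]
      rfl
    · simp only [if_neg h]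
      rw [inner_zero_left]
  rw [h1, sum_fin_prod m (m + 1) (fun k i ↦ (if gp T m k i < τ ω then
        c k * (B (min t (gp T m k (i + 1))) ω i₀ -
          B (min t (gp T m k i)) ω i₀) else 0 : ℝ))]
  refine Finset.sum_congr rfl fun k hk ↦ ?_
  rw [← hρ k (Finset.mem_range.1 hk) (fun a ↦ B (min t a) ω i₀), Finset.mul_sum]
  refine Finset.sum_congr rfl fun i _ ↦ ?_
  split_ifs <;> simp

/-- Integrals of the approximations are close to `J`. -/
lemma Hm_integral_sub {ℱ : Filtration ℝ≥0 mΩ} (i₀ : Fin d) (c : ℕ → ℝ) {T : ℝ≥0} (hT : 0 < T)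
    {τ : Ω → ℝ≥0} (hτ : ∀ a : ℝ≥0, MeasurableSet[ℱ a] {ω | a < τ ω}) {m : ℕ} {ω : Ω}
    (hτT : τ ω < T) (hm : NN T (τ ω) ≤ m)
    (B : ℝ≥0 → Ω → EuclideanSpace ℝ (Fin d)) {η : ℝ}
    (hη : ∀ s t : ℝ≥0, s ≤ T → t ≤ T → s ≤ t → t ≤ s + T / (m + 1) →
      |B t ω i₀ - B s ω i₀| ≤ η) (t : ℝ≥0) :
    |(Hm (ℱ := ℱ) i₀ c T τ hτ m).integral B t ω - J c T (τ ω) (fun t ↦ B t ω i₀) t| ≤
      (∑ k ∈ range (NN T (τ ω)), |c k|) * η := by
  choose ρ hρ1 hρ2 hρ3 hρ4 using fun k ↦ exists_rho hT m k hτT.le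
  rw [Hm_integral i₀ c hτ m ω ρ (fun k _ ↦ hρ4 k), J_eq hτT _ _ hm, ← Finset.sum_sub_distrib]
  refine (Finset.abs_sum_le_sum_abs _ _).trans ?_
  have h1 : ∑ k ∈ range m, |c k * (B (min t (ρ k)) ω i₀ - B (min t (u T k)) ω i₀) -
      c k * (B (min t (τ ω)) ω i₀ - B (min (min t (τ ω)) (u T k)) ω i₀)|
      = ∑ k ∈ range (NN T (τ ω)), |c k * (B (min t (ρ k)) ω i₀ - B (min t (u T k)) ω i₀) -
      c k * (B (min t (τ ω)) ω i₀ - B (min (min t (τ ω)) (u T k)) ω i₀)| := by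
    refine (Finset.sum_subset (Finset.range_mono hm) ?_).symm
    intro k _ hk
    rw [Finset.mem_range, not_lt] at hk
    have h2 : τ ω ≤ u T k := le_u_of_NN_le hτT hk
    rw [hρ1 k h2, min_eq_left ((min_le_right t (τ ω)).trans h2)]
    simp
  rw [h1, Finset.sum_mul]
  refine Finset.sum_le_sum fun k hk ↦ ?_
  have hu : u T k < τ ω := u_lt_of_lt_NN (Finset.mem_range.1 hk)
  obtain ⟨h3, h4⟩ := hρ2 k hu
  have h5 : min (min t (τ ω)) (u T k) = min t (u T k) := by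
    rw [min_assoc, min_eq_right hu.le]
  rw [h5]
  have h6 : c k * (B (min t (ρ k)) ω i₀ - B (min t (u T k)) ω i₀) -
      c k * (B (min t (τ ω)) ω i₀ - B (min t (u T k)) ω i₀)
      = c k * (B (min t (ρ k)) ω i₀ - B (min t (τ ω)) ω i₀) := by ring
  rw [h6, abs_mul]
  refine mul_le_mul_of_nonneg_left ?_ (abs_nonneg _)
  apply hη
  · exact (min_le_right _ _).trans hτT.le
  · exact (min_le_right _ _).trans (hρ3 k)
  · exact min_le_min_left _ h3
  · rcases le_total t (τ ω) with h | h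
    · rw [min_eq_left h]
      exact (min_le_left _ _).trans le_self_add
    · rw [min_eq_right h]
      exact (min_le_right _ _).trans h4

/-- The approximations agree with `K` outside a short interval and finitely many points. -/
lemma Hm_process_sub {ℱ : Filtration ℝ≥0 mΩ} (i₀ : Fin d) (c : ℕ → ℝ) {T : ℝ≥0} (hT : 0 < T)
    {τ : Ω → ℝ≥0} (hτ : ∀ a : ℝ≥0, MeasurableSet[ℱ a] {ω | a < τ ω}) {m : ℕ} {ω : Ω}
    (hτT : τ ω < T) (hm : NN T (τ ω) ≤ m) (s : ℝ≥0)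
    (hs : ∀ k < NN T (τ ω), s ≠ u T k) :
    ‖(Hm (ℱ := ℱ) i₀ c T τ hτ m).process s ω - K c T (τ ω) s • e i₀‖ ≤
      (Icc (τ ω) (τ ω + T / (m + 1))).indicator (fun _ ↦ ∑ k ∈ range (NN T (τ ω)), |c k|) s := by
  choose ρ hρ1 hρ2 hρ3 hρ4 using fun k ↦ exists_rho hT m k hτT.le
  rw [Hm_process i₀ c hτ m ω ρ (fun k _ ↦ hρ4 k), ← sub_smul, norm_smul_e, K_eq hτT _ hm,
    ← Finset.sum_sub_distrib]
  refine (Finset.abs_sum_le_sum_abs _ _).trans ?_
  have h1 : ∑ k ∈ range m, |c k * ((if s ≤ ρ k then 1 else 0) - (if s ≤ u T k then 1 else 0)) -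
      (Ico (u T k) (τ ω)).indicator (fun _ ↦ c k) s|
      = ∑ k ∈ range (NN T (τ ω)),
        |c k * ((if s ≤ ρ k then 1 else 0) - (if s ≤ u T k then 1 else 0)) -
      (Ico (u T k) (τ ω)).indicator (fun _ ↦ c k) s| := by
    refine (Finset.sum_subset (Finset.range_mono hm) ?_).symm
    intro k _ hk
    rw [Finset.mem_range, not_lt] at hk
    have h2 : τ ω ≤ u T k := le_u_of_NN_le hτT hk
    rw [hρ1 k h2, Ico_eq_empty (not_lt.2 h2)]
    simp
  rw [h1]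
  by_cases hmem : s ∈ Icc (τ ω) (τ ω + T / (m + 1))
  · rw [indicator_of_mem hmem]
    refine Finset.sum_le_sum fun k hk ↦ ?_
    have hu : u T k < τ ω := u_lt_of_lt_NN (Finset.mem_range.1 hk)
    rw [indicator_of_notMem (fun h ↦ absurd hmem.1 (not_le.2 h.2)), sub_zero, abs_mul,
      if_neg (not_le.2 (hu.trans_le hmem.1)), sub_zero]
    split_ifs <;> simp
  · rw [indicator_of_notMem hmem]
    apply le_of_eq
    refine Finset.sum_eq_zero fun k hk ↦ ?_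
    have hu : u T k < τ ω := u_lt_of_lt_NN (Finset.mem_range.1 hk)
    obtain ⟨h3, h4⟩ := hρ2 k hu
    have hne := hs k (Finset.mem_range.1 hk)
    rcases lt_or_ge s (τ ω) with h | h
    · rcases lt_or_gt_of_ne hne with h5 | h5
      · rw [if_pos (h.le.trans h3), if_pos h5.le, indicator_of_notMem
          (fun h' ↦ absurd h'.1 (not_le.2 h5))]
        simp
      · rw [if_pos (h.le.trans h3), if_neg (not_le.2 h5),
          indicator_of_mem (show s ∈ Ico (u T k) (τ ω) from ⟨h5.le, h⟩)]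
        simp
    · have h6 : τ ω + T / (m + 1) < s := by
        by_contra hc
        exact hmem ⟨h, not_lt.1 hc⟩
      rw [if_neg (not_le.2 (h4.trans_lt h6)), if_neg (not_le.2 (hu.trans_le h)),
        indicator_of_notMem (fun h' ↦ absurd h'.2 (not_lt.2 h))]
      simp

end Pool.Agent.Lib.MP_3fc9e2_pr
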