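import Mathlib

set_option autoImplicit false

open MeasureTheory ProbabilityTheory Filter Topology Set
open scoped NNReal ENNReal

/-!
# Definitions for the BSDE with generator `|z| sin |z|`

Time runs through `ℝ≥0`; only the times `t ≤ T` matter.
-/

namespace Pool.Agent.Lib.MP_3fc9e2_pr

variable {Ω : Type*} {mΩ : MeasurableSpace Ω} {d : ℕ}

/-- `B` is a `d`-dimensional standard Brownian motion under `P`: its coordinates are independent
real standard Brownian motions (started at `0`, with almost surely continuous paths). -/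
structure IsBrownianMotion (B : ℝ≥0 → Ω → EuclideanSpace ℝ (Fin d)) (P : Measure Ω) : Prop where
  /-- every `B t` is a random variable -/
  measurable : ∀ t, Measurable (B t)
  /-- every coordinate is a real Brownian motion -/
  coord : ∀ i : Fin d, IsBrownianReal (fun t ω ↦ B t ω i) P
  /-- the coordinate processes are independent -/
  indep : iIndepFun (fun (i : Fin d) (ω : Ω) (t : ℝ≥0) ↦ B t ω i) P

/-- The completed natural filtration of `B`: the σ-algebra at time `t` is generated by the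
`B s`, `s ≤ t`, and by the `P`-null sets. -/
def completedFiltration (P : Measure Ω) [P.IsComplete]
    (B : ℝ≥0 → Ω → EuclideanSpace ℝ (Fin d)) (hB : ∀ t, Measurable (B t)) :
    Filtration ℝ≥0 mΩ where
  seq t := (⨆ s ≤ t, MeasurableSpace.comap (B s) inferInstance) ⊔
    MeasurableSpace.generateFrom {N : Set Ω | P N = 0}
  mono' := by
    intro s t hst
    refine sup_le_sup ?_ le_rfl
    exact iSup₂_le fun r hr ↦ le_iSup₂_of_le r (hr.trans hst) le_rfl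
  le' := by
    intro t
    refine sup_le (iSup₂_le fun s _ ↦ (hB s).comap_le) ?_
    exact MeasurableSpace.generateFrom_le fun N hN ↦ measurableSet_of_null hN

/-- A simple integrand: a finite sum `H = ∑ᵢ hᵢ 1_{(aᵢ, bᵢ]}` with deterministic times
`aᵢ ≤ bᵢ` and bounded `hᵢ : Ω → ℝ^d`, `hᵢ` being measurable at time `aᵢ`. -/
structure SimpleIntegrand (ℱ : Filtration ℝ≥0 mΩ) (d : ℕ) where
  /-- the finite index set -/
  ι : Type
  /-- the index set is finite -/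
  fintype : Fintype ι
  /-- left end points -/
  a : ι → ℝ≥0
  /-- right end points -/
  b : ι → ℝ≥0
  a_le_b : ∀ i, a i ≤ b i
  /-- the coefficients -/
  h : ι → Ω → EuclideanSpace ℝ (Fin d)
  measurable_h : ∀ i, Measurable[ℱ (a i)] (h i)
  bounded_h : ∃ C : ℝ, ∀ i ω, ‖h i ω‖ ≤ C

/-- The process `H = ∑ᵢ hᵢ 1_{(aᵢ, bᵢ]}`. -/
noncomputable def SimpleIntegrand.process {ℱ : Filtration ℝ≥0 mΩ} (H : SimpleIntegrand ℱ d)
    (t : ℝ≥0) (ω : Ω) : EuclideanSpace ℝ (Fin d) :=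
  letI := H.fintype
  ∑ i, (Ioc (H.a i) (H.b i)).indicator (fun _ ↦ H.h i ω) t

/-- The elementary stochastic integral
`∫₀ᵗ H · dB = ∑ᵢ hᵢ · (B_{t ∧ bᵢ} - B_{t ∧ aᵢ})`. -/
noncomputable def SimpleIntegrand.integral {ℱ : Filtration ℝ≥0 mΩ} (H : SimpleIntegrand ℱ d)
    (B : ℝ≥0 → Ω → EuclideanSpace ℝ (Fin d)) (t : ℝ≥0) (ω : Ω) : ℝ :=
  letI := H.fintype
  ∑ i, inner ℝ (H.h i ω) (B (min t (H.b i)) ω - B (min t (H.a i)) ω)

/-- `I` is (a version on `[0,T]` of) the Itô integral process `t ↦ ∫₀ᵗ Z · dB`: it is a uniform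
limit in probability on `[0,T]` of elementary integrals of simple integrands `Hₙ` such that
`∫₀ᵀ |Hₙ - Z|² ds → 0` in probability. -/
def IsItoIntegral (ℱ : Filtration ℝ≥0 mΩ) (P : Measure Ω)
    (B : ℝ≥0 → Ω → EuclideanSpace ℝ (Fin d)) (T : ℝ≥0)
    (Z : ℝ≥0 → Ω → EuclideanSpace ℝ (Fin d)) (I : ℝ≥0 → Ω → ℝ) : Prop :=
  ∃ H : ℕ → SimpleIntegrand ℱ d,
    (∀ ε : ℝ≥0∞, 0 < ε → Tendsto (fun n ↦
      P {ω | ε ≤ ∫⁻ s in Icc (0 : ℝ) T,
        ‖(H n).process s.toNNReal ω - Z s.toNNReal ω‖ₑ ^ 2}) atTop (𝓝 0)) ∧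
    (∀ ε : ℝ, 0 < ε → Tendsto (fun n ↦
      P {ω | ∃ t ≤ T, ε ≤ |(H n).integral B t ω - I t ω|}) atTop (𝓝 0))

/-- `(Y, Z)` is a solution on `[0,T]` of the backward equation
`Y_t = ξ + ∫ₜᵀ |Z_s| sin |Z_s| ds - ∫ₜᵀ Z_s · dB_s`. -/
structure IsSolution (ℱ : Filtration ℝ≥0 mΩ) (P : Measure Ω)
    (B : ℝ≥0 → Ω → EuclideanSpace ℝ (Fin d)) (T : ℝ≥0) (ξ : Ω → ℝ)
    (Y : ℝ≥0 → Ω → ℝ) (Z : ℝ≥0 → Ω → EuclideanSpace ℝ (Fin d)) : Prop where
  /-- `Y` is progressively measurable -/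
  progressive_Y : IsProgressive ℱ Y
  /-- `Z` is progressively measurable -/
  progressive_Z : IsProgressive ℱ Z
  /-- `Y` has continuous paths -/
  continuous_Y : ∀ ω, Continuous fun t ↦ Y t ω
  /-- `∫₀ᵀ |Z_s|² ds < ∞` almost surely -/
  sq_integrable : ∀ᵐ ω ∂P, ∫⁻ s in Icc (0 : ℝ) T, ‖Z s.toNNReal ω‖ₑ ^ 2 < ∞
  /-- the equation -/
  equation : ∃ I : ℝ≥0 → Ω → ℝ, IsItoIntegral ℱ P B T Z I ∧
    ∀ᵐ ω ∂P, ∀ t ≤ T, Y t ω = ξ ω +
      (∫ s in (t : ℝ)..T, ‖Z s.toNNReal ω‖ * Real.sin ‖Z s.toNNReal ω‖) - (I T ω - I t ω)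

/-- The process `X` on `[0,T]` is of class (D): the family of the `X_τ`, where `τ` runs through
the stopping times with values in `[0,T]`, is uniformly integrable. -/
def IsClassD (ℱ : Filtration ℝ≥0 mΩ) (P : Measure Ω) (T : ℝ≥0) (X : ℝ≥0 → Ω → ℝ) : Prop :=
  UniformIntegrable (fun (τ : {τ : Ω → ℝ≥0 //
    IsStoppingTime ℱ (fun ω ↦ ((τ ω : ℝ≥0) : WithTop ℝ≥0)) ∧ ∀ ω, τ ω ≤ T}) (ω : Ω) ↦
      X (τ.1 ω) ω) 1 P

end Pool.Agent.Lib.MP_3fc9e2_pr
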