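import Mathlib

set_option autoImplicit false

open MeasureTheory Filter Topology Set Finset
open scoped NNReal ENNReal

namespace Pool.Agent.Lib.MP_3fc9e2_pr

/-- The grid `u k = T (1 - 2⁻ᵏ)`. -/
noncomputable def u (T : ℝ≥0) (k : ℕ) : ℝ≥0 := T - T / 2 ^ k

lemma coe_u (T : ℝ≥0) (k : ℕ) : (u T k : ℝ) = T - T / 2 ^ k := by
  have h : T / 2 ^ k ≤ T := by
    apply div_le_self zero_le
    exact one_le_pow₀ (by norm_num)
  rw [u, NNReal.coe_sub h]
  push_cast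
  rfl

@[simp] lemma u_zero (T : ℝ≥0) : u T 0 = 0 := by simp [u]

lemma u_mono (T : ℝ≥0) : Monotone (u T) := by
  intro j k hjk
  rw [← NNReal.coe_le_coe, coe_u, coe_u]
  have : (T : ℝ) / 2 ^ k ≤ T / 2 ^ j := by
    apply div_le_div_of_nonneg_left T.2 (by positivity)
    exact pow_le_pow_right₀ (by norm_num) hjk
  linarith

lemma u_lt {T : ℝ≥0} (hT : 0 < T) (k : ℕ) : u T k < T := by
  rw [← NNReal.coe_lt_coe, coe_u]
  have : (0 : ℝ) < T / 2 ^ k := by positivity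
  linarith

lemma u_succ_sub (T : ℝ≥0) (k : ℕ) : (u T (k + 1) : ℝ) - u T k = T / 2 ^ (k + 1) := by
  rw [coe_u, coe_u, pow_succ]
  field_simp
  ring

lemma exists_le_u {T t : ℝ≥0} (h : t < T) : ∃ n, t ≤ u T n := by
  have h' : (t : ℝ) < T := by exact_mod_cast h
  obtain ⟨n, hn⟩ := exists_pow_lt_of_lt_one (show (0 : ℝ) < (T - t) / (T + 1) by
    have : (0 : ℝ) ≤ T := T.2
    apply div_pos <;> linarith) (show (1 / 2 : ℝ) < 1 by norm_num)
  refine ⟨n, ?_⟩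
  rw [← NNReal.coe_le_coe, coe_u]
  have hT : (0 : ℝ) ≤ T := T.2
  rw [lt_div_iff₀ (by linarith)] at hn
  have : (T : ℝ) / 2 ^ n = T * (1 / 2) ^ n := by
    rw [one_div, inv_pow]; rfl
  rw [this]
  have h2 : (0 : ℝ) < (1 / 2) ^ n := by positivity
  nlinarith

open Classical in
/-- The first `n` with `t ≤ u n` (and `0` if there is none). -/
noncomputable def NN (T t : ℝ≥0) : ℕ := if h : ∃ n, t ≤ u T n then Nat.find h else 0

lemma le_u_NN {T t : ℝ≥0} (h : t < T) : t ≤ u T (NN T t) := by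
  classical
  have h' := exists_le_u h
  rw [NN, dif_pos h']
  convert Nat.find_spec h'

lemma u_lt_of_lt_NN {T t : ℝ≥0} {k : ℕ} (hk : k < NN T t) : u T k < t := by
  classical
  by_cases h' : ∃ n, t ≤ u T n
  · rw [NN, dif_pos h'] at hk
    have : k < Nat.find h' := by convert hk
    exact not_le.1 (Nat.find_min h' this)
  · rw [NN, dif_neg h'] at hk
    omega

lemma le_u_of_NN_le {T t : ℝ≥0} (h : t < T) {k : ℕ} (hk : NN T t ≤ k) : t ≤ u T k :=
  (le_u_NN h).trans (u_mono T hk)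

lemma NN_le_of_le {T t : ℝ≥0} {n : ℕ} (h : t ≤ u T n) : NN T t ≤ n := by
  by_contra hlt
  exact absurd (u_lt_of_lt_NN (not_le.1 hlt)) (not_lt.2 h)

/-- `J c T τ w t = ∫₀^{t ∧ τ} K dw` where `K = ∑ c k 1_{[u k, ∞)}`. -/
noncomputable def J (c : ℕ → ℝ) (T τ : ℝ≥0) (w : ℝ≥0 → ℝ) (t : ℝ≥0) : ℝ :=
  ∑ k ∈ range (NN T τ), c k * (w (min t τ) - w (min (min t τ) (u T k)))

/-- `K c T τ s = K(s) 1_{s < τ}` where `K = ∑ c k 1_{[u k, ∞)}`. -/
noncomputable def K (c : ℕ → ℝ) (T τ s : ℝ≥0) : ℝ :=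
  ∑ k ∈ range (NN T τ), (Ico (u T k) τ).indicator (fun _ ↦ c k) s

lemma J_eq {c : ℕ → ℝ} {T τ : ℝ≥0} (h : τ < T) (w : ℝ≥0 → ℝ) (t : ℝ≥0) {n : ℕ}
    (hn : NN T τ ≤ n) :
    J c T τ w t = ∑ k ∈ range n, c k * (w (min t τ) - w (min (min t τ) (u T k))) := by
  unfold J
  refine Finset.sum_subset (Finset.range_mono hn) ?_
  intro k _ hk
  rw [Finset.mem_range, not_lt] at hk
  have h1 : τ ≤ u T k := le_u_of_NN_le h hk
  have h2 : min (min t τ) (u T k) = min t τ := min_eq_left ((min_le_right _ _).trans h1)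
  rw [h2, sub_self, mul_zero]

lemma K_eq {c : ℕ → ℝ} {T τ : ℝ≥0} (h : τ < T) (s : ℝ≥0) {n : ℕ} (hn : NN T τ ≤ n) :
    K c T τ s = ∑ k ∈ range n, (Ico (u T k) τ).indicator (fun _ ↦ c k) s := by
  unfold K
  refine Finset.sum_subset (Finset.range_mono hn) ?_
  intro k _ hk
  rw [Finset.mem_range, not_lt] at hk
  have h1 : τ ≤ u T k := le_u_of_NN_le h hk
  rw [Ico_eq_empty (not_lt.2 h1)]
  simp

lemma continuous_J {c : ℕ → ℝ} {T τ : ℝ≥0} {w : ℝ≥0 → ℝ} (hw : Continuous w) :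
    Continuous (J c T τ w) := by
  unfold J
  fun_prop

lemma K_of_le {c : ℕ → ℝ} {T τ s : ℝ≥0} (h : τ ≤ s) : K c T τ s = 0 := by
  unfold K
  refine Finset.sum_eq_zero fun k _ ↦ ?_
  rw [indicator_of_notMem]
  rintro ⟨_, h2⟩
  exact absurd h2 (not_lt.2 h)

lemma abs_K_le {c : ℕ → ℝ} (hc : ∀ k, 0 ≤ c k) (T τ s : ℝ≥0) :
    |K c T τ s| ≤ ∑ k ∈ range (NN T τ), c k := by
  unfold K
  rw [abs_of_nonneg]
  · refine Finset.sum_le_sum fun k _ ↦ ?_
    exact indicator_le_self' (fun _ _ ↦ hc k) s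
  · exact Finset.sum_nonneg fun k _ ↦ indicator_nonneg (fun _ _ ↦ hc k) s

lemma abs_J_le {c : ℕ → ℝ} (hc : ∀ k, 0 ≤ c k) {T τ : ℝ≥0} {w : ℝ≥0 → ℝ} {M : ℝ}
    (hτ : τ ≤ T) (hM : ∀ t ≤ T, |w t| ≤ M) (t : ℝ≥0) :
    |J c T τ w t| ≤ (∑ k ∈ range (NN T τ), c k) * (2 * M) := by
  unfold J
  refine (Finset.abs_sum_le_sum_abs _ _).trans ?_
  rw [Finset.sum_mul]
  refine Finset.sum_le_sum fun k _ ↦ ?_
  rw [abs_mul, abs_of_nonneg (hc k)]
  refine mul_le_mul_of_nonneg_left ?_ (hc k)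
  have h1 := hM (min t τ) ((min_le_right _ _).trans hτ)
  have h2 := hM (min (min t τ) (u T k)) ((min_le_left _ _).trans ((min_le_right _ _).trans hτ))
  have h3 := abs_sub (w (min t τ)) (w (min (min t τ) (u T k)))
  linarith

/-! ### Time integral of `K` -/

lemma measurable_K_toNNReal (c : ℕ → ℝ) (T τ : ℝ≥0) :
    Measurable fun s : ℝ ↦ K c T τ s.toNNReal := by
  unfold K
  refine Finset.measurable_sum _ fun k _ ↦ ?_
  have h : Measurable ((Ico (u T k) τ).indicator (fun _ : ℝ≥0 ↦ c k)) :=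
    measurable_const.indicator measurableSet_Ico
  exact h.comp measurable_real_toNNReal

lemma intervalIntegral_indicator_Ico {a b t : ℝ≥0} (cc : ℝ) (hab : a ≤ b) :
    ∫ s in (0 : ℝ)..t, (Ico a b).indicator (fun _ ↦ cc) s.toNNReal
      = cc * (((min t b : ℝ≥0) : ℝ) - ((min (min t b) a : ℝ≥0) : ℝ)) := by
  rw [intervalIntegral.integral_of_le (NNReal.coe_nonneg t)]
  have h1 : ∫ s in Ioc (0 : ℝ) t, (Ico a b).indicator (fun _ ↦ cc) s.toNNReal
      = ∫ s in Ioc (0 : ℝ) t, (Ico (a : ℝ) b).indicator (fun _ ↦ cc) s := by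
    refine setIntegral_congr_fun measurableSet_Ioc ?_
    intro s hs
    have hs0 : 0 ≤ s := hs.1.le
    have h : s.toNNReal ∈ Ico a b ↔ s ∈ Ico (a : ℝ) b := by
      rw [Set.mem_Ico, Set.mem_Ico, Real.le_toNNReal_iff_coe_le hs0, Real.toNNReal_lt_iff_lt_coe hs0]
    show (Ico a b).indicator (fun _ ↦ cc) s.toNNReal = (Ico (a : ℝ) b).indicator (fun _ ↦ cc) s
    by_cases hm : s ∈ Ico (a : ℝ) b
    · rw [indicator_of_mem hm, indicator_of_mem (h.2 hm)]
    · rw [indicator_of_notMem hm, indicator_of_notMem (fun h' ↦ hm (h.1 h'))]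
  rw [h1, setIntegral_indicator measurableSet_Ico, setIntegral_const]
  have h2 : volume.real (Ioc (0 : ℝ) t ∩ Ico (a : ℝ) b)
      = ((min t b : ℝ≥0) : ℝ) - ((min (min t b) a : ℝ≥0) : ℝ) := by
    have hsub1 : Ioo (a : ℝ) ((min t b : ℝ≥0) : ℝ) ⊆ Ioc (0 : ℝ) t ∩ Ico (a : ℝ) b := by
      intro s hs
      have hs1 := hs.1
      have hs2 := hs.2
      push_cast at hs2
      rw [lt_min_iff] at hs2
      exact ⟨⟨lt_of_le_of_lt a.2 hs1, hs2.1.le⟩, ⟨hs1.le, hs2.2⟩⟩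
    have hsub2 : Ioc (0 : ℝ) t ∩ Ico (a : ℝ) b ⊆ Icc (a : ℝ) ((min t b : ℝ≥0) : ℝ) := by
      rintro s ⟨hs1, hs2⟩
      refine ⟨hs2.1, ?_⟩
      push_cast
      exact le_min hs1.2 hs2.2.le
    have e1 : volume (Ioc (0 : ℝ) t ∩ Ico (a : ℝ) b)
        = ENNReal.ofReal (((min t b : ℝ≥0) : ℝ) - a) := by
      refine le_antisymm ?_ ?_
      · refine (measure_mono hsub2).trans ?_
        rw [Real.volume_Icc]
      · refine le_trans ?_ (measure_mono hsub1)
        rw [Real.volume_Ioo]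
    rw [Measure.real, e1]
    by_cases hle : a ≤ min t b
    · rw [min_eq_right hle, ENNReal.toReal_ofReal]
      rw [sub_nonneg]
      exact_mod_cast hle
    · have hle' : min t b ≤ a := (not_le.1 hle).le
      have hle2 : ((min t b : ℝ≥0) : ℝ) ≤ a := by exact_mod_cast hle'
      rw [min_eq_left hle', sub_self, ENNReal.ofReal_of_nonpos (by linarith)]
      rfl
  rw [h2, smul_eq_mul, mul_comm]

lemma abs_K_le' {c : ℕ → ℝ} (T τ s : ℝ≥0) :
    |K c T τ s| ≤ ∑ k ∈ range (NN T τ), |c k| := by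
  unfold K
  refine (Finset.abs_sum_le_sum_abs _ _).trans (Finset.sum_le_sum fun k _ ↦ ?_)
  by_cases h : s ∈ Ico (u T k) τ
  · rw [indicator_of_mem h]
  · rw [indicator_of_notMem h, abs_zero]
    exact abs_nonneg _

lemma intervalIntegrable_K (c : ℕ → ℝ) (T τ : ℝ≥0) (a b : ℝ) :
    IntervalIntegrable (fun s : ℝ ↦ K c T τ s.toNNReal) volume a b := by
  refine (intervalIntegrable_const (c := ∑ k ∈ range (NN T τ), |c k|)).mono_fun
    (measurable_K_toNNReal c T τ).aestronglyMeasurable ?_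
  refine Eventually.of_forall fun s ↦ ?_
  show ‖K c T τ s.toNNReal‖ ≤ ‖∑ k ∈ range (NN T τ), |c k|‖
  rw [Real.norm_eq_abs, Real.norm_eq_abs]
  exact (abs_K_le' T τ _).trans (le_abs_self _)

lemma integral_K (c : ℕ → ℝ) (T τ t : ℝ≥0) :
    ∫ s in (0 : ℝ)..t, K c T τ s.toNNReal = J c T τ (fun t ↦ (t : ℝ)) t := by
  unfold K J
  rw [intervalIntegral.integral_finsetSum]
  · refine Finset.sum_congr rfl fun k hk ↦ ?_
    exact intervalIntegral_indicator_Ico (c k) (u_lt_of_lt_NN (Finset.mem_range.1 hk)).le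
  · intro k _
    have h : Measurable ((Ico (u T k) τ).indicator (fun _ : ℝ≥0 ↦ c k)) :=
      measurable_const.indicator measurableSet_Ico
    refine (intervalIntegrable_const (c := |c k|)).mono_fun
      (h.comp measurable_real_toNNReal).aestronglyMeasurable ?_
    refine Eventually.of_forall fun s ↦ ?_
    show ‖(Ico (u T k) τ).indicator (fun _ : ℝ≥0 ↦ c k) s.toNNReal‖ ≤ ‖|c k|‖
    by_cases h : s.toNNReal ∈ Ico (u T k) τ
    · rw [indicator_of_mem h, Real.norm_eq_abs, norm_abs_eq_norm, Real.norm_eq_abs]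
    · rw [indicator_of_notMem h, norm_zero]
      exact norm_nonneg _

lemma integral_K_right (c : ℕ → ℝ) (T τ t : ℝ≥0) :
    ∫ s in (t : ℝ)..T, K c T τ s.toNNReal
      = J c T τ (fun t ↦ (t : ℝ)) T - J c T τ (fun t ↦ (t : ℝ)) t := by
  rw [← integral_K, ← integral_K, ← intervalIntegral.integral_interval_sub_left
    (intervalIntegrable_K c T τ _ _) (intervalIntegrable_K c T τ _ _)]

end Pool.Agent.Lib.MP_3fc9e2_pr
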