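import Pool.Agent.Lib.MP_3fc9e2_pr.Meas

set_option autoImplicit false

open MeasureTheory ProbabilityTheory Filter Topology Set Finset
open scoped NNReal ENNReal

namespace Pool.Agent.Lib.MP_3fc9e2_pr

section General

variable {Ω : Type*} {mΩ : MeasurableSpace Ω} {P : Measure Ω} [IsFiniteMeasure P]

/-- If a point almost surely leaves the measurable sets `E m` eventually, their measures tend
to `0`; the same for smaller sets up to a null set. -/
lemma tendsto_measure_of_eventually_notMem {S E : ℕ → Set Ω} (hE : ∀ m, MeasurableSet (E m))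
    (hsub : ∀ m, ∀ᵐ ω ∂P, ω ∈ S m → ω ∈ E m) (hev : ∀ᵐ ω ∂P, ∀ᶠ m in atTop, ω ∉ E m) :
    Tendsto (fun m ↦ P (S m)) atTop (𝓝 0) := by
  have h1 : Tendsto (fun m ↦ ∫⁻ ω, (E m).indicator (fun _ ↦ (1 : ℝ≥0∞)) ω ∂P) atTop
      (𝓝 (∫⁻ _, 0 ∂P)) := by
    refine tendsto_lintegral_of_dominated_convergence (fun _ ↦ 1) ?_ ?_ ?_ ?_
    · exact fun m ↦ measurable_const.indicator (hE m)
    · intro m
      exact Eventually.of_forall fun ω ↦ indicator_le_self' (fun _ _ ↦ zero_le) ω
    · simp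
    · filter_upwards [hev] with ω hω
      refine tendsto_const_nhds.congr' ?_
      filter_upwards [hω] with m hm
      rw [indicator_of_notMem hm]
  simp only [lintegral_zero] at h1
  have h2 : ∀ m, ∫⁻ ω, (E m).indicator (fun _ ↦ (1 : ℝ≥0∞)) ω ∂P = P (E m) := by
    intro m
    rw [lintegral_indicator (hE m)]
    simp
  simp_rw [h2] at h1
  refine tendsto_of_tendsto_of_tendsto_of_le_of_le tendsto_const_nhds h1
    (fun _ ↦ zero_le) (fun m ↦ ?_)
  exact measure_mono_ae (hsub m)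

end General

lemma measurable_NN (T : ℝ≥0) (hT : 0 < T) : Measurable (NN T) := by
  refine measurable_of_Iic fun n ↦ ?_
  have : NN T ⁻¹' Set.Iic n = Set.Iic (u T n) ∪ Set.Ici T := by
    ext t
    simp only [Set.mem_preimage, Set.mem_Iic, Set.mem_union, Set.mem_Ici]
    constructor
    · intro h
      rcases lt_or_ge t T with h1 | h1
      · exact Or.inl (le_u_of_NN_le h1 h)
      · exact Or.inr h1
    · rintro (h | h)
      · exact NN_le_of_le h
      · have : NN T t = 0 := by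
          classical
          rw [NN, dif_neg]
          rintro ⟨n, hn⟩
          exact absurd (h.trans hn) (not_le.2 (u_lt hT n))
        rw [this]
        exact Nat.zero_le _
  rw [this]
  exact measurableSet_Iic.union measurableSet_Ici

variable {Ω : Type*} {mΩ : MeasurableSpace Ω} {P : Measure Ω} [IsProbabilityMeasure P]
  {d : ℕ} {ℱ : Filtration ℝ≥0 mΩ}

/-- The time integral of the squared error. -/
lemma lintegral_sq_le (i₀ : Fin d) (c : ℕ → ℝ) {T : ℝ≥0} (hT : 0 < T)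
    {τ : Ω → ℝ≥0} (hτ : ∀ a : ℝ≥0, MeasurableSet[ℱ a] {ω | a < τ ω}) {m : ℕ} {ω : Ω}
    (hτT : τ ω < T) (hm : NN T (τ ω) ≤ m) :
    ∫⁻ s in Icc (0 : ℝ) T, ‖(Hm (ℱ := ℱ) i₀ c T τ hτ m).process s.toNNReal ω -
      K c T (τ ω) s.toNNReal • e i₀‖ₑ ^ 2
      ≤ ENNReal.ofReal (∑ k ∈ range (NN T (τ ω)), |c k|) ^ 2 *
        ENNReal.ofReal ((T : ℝ) / (m + 1)) := by
  set C : ℝ := ∑ k ∈ range (NN T (τ ω)), |c k| with hC
  have hfin : (⋃ k : ℕ, {((u T k : ℝ≥0) : ℝ)} : Set ℝ).Countable :=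
    Set.countable_iUnion fun _ ↦ Set.countable_singleton _
  have hnull : ∀ᵐ s : ℝ ∂(volume.restrict (Icc (0 : ℝ) T)),
      s ∉ (⋃ k : ℕ, {((u T k : ℝ≥0) : ℝ)} : Set ℝ) :=
    ae_restrict_of_ae (measure_eq_zero_iff_ae_notMem.1 (hfin.measure_zero volume))
  have h1 : ∀ᵐ s : ℝ ∂(volume.restrict (Icc (0 : ℝ) T)),
      ‖(Hm (ℱ := ℱ) i₀ c T τ hτ m).process s.toNNReal ω -
      K c T (τ ω) s.toNNReal • e i₀‖ₑ ^ 2 ≤
      (Icc ((τ ω : ℝ≥0) : ℝ) (τ ω + T / (m + 1))).indicator
        (fun _ ↦ ENNReal.ofReal C ^ 2) s := by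
    filter_upwards [hnull, ae_restrict_mem measurableSet_Icc] with s hs hs0
    have hs' : ∀ k < NN T (τ ω), s.toNNReal ≠ u T k := by
      intro k _ hk
      apply hs
      rw [Set.mem_iUnion]
      refine ⟨k, ?_⟩
      rw [Set.mem_singleton_iff, ← hk, Real.coe_toNNReal _ hs0.1]
    have h2 := Hm_process_sub i₀ c hT hτ hτT hm s.toNNReal hs'
    have hmem : s.toNNReal ∈ Icc (τ ω) (τ ω + T / (m + 1)) ↔
        s ∈ Icc ((τ ω : ℝ≥0) : ℝ) (τ ω + T / (m + 1)) := by
      rw [Set.mem_Icc, Set.mem_Icc, Real.le_toNNReal_iff_coe_le hs0.1,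
        Real.toNNReal_le_iff_le_coe]
      push_cast
      rfl
    by_cases h : s ∈ Icc ((τ ω : ℝ≥0) : ℝ) (τ ω + T / (m + 1))
    · rw [indicator_of_mem h]
      rw [indicator_of_mem (hmem.2 h)] at h2
      gcongr
      rw [← ofReal_norm]
      exact ENNReal.ofReal_le_ofReal h2
    · rw [indicator_of_notMem h]
      rw [indicator_of_notMem (fun h' ↦ h (hmem.1 h'))] at h2
      have h3 : ‖(Hm (ℱ := ℱ) i₀ c T τ hτ m).process s.toNNReal ω -
        K c T (τ ω) s.toNNReal • e i₀‖ = 0 := le_antisymm h2 (norm_nonneg _)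
      rw [norm_eq_zero] at h3
      rw [h3]
      simp
  refine (lintegral_mono_ae h1).trans ?_
  rw [lintegral_indicator measurableSet_Icc, lintegral_const]
  gcongr
  rw [Measure.restrict_apply_univ]
  refine (Measure.restrict_apply_le _ _).trans ?_
  rw [Real.volume_Icc]
  apply ENNReal.ofReal_le_ofReal
  linarith

/-- The Itô integral of `K(s) 1_{s < τ} e` is `J`. -/
lemma isItoIntegral_J (i₀ : Fin d) (c : ℕ → ℝ) {T : ℝ≥0} (hT : 0 < T)
    {τ : Ω → ℝ≥0} (hτ : ∀ a : ℝ≥0, MeasurableSet[ℱ a] {ω | a < τ ω}) (hτT : ∀ ω, τ ω < T)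
    {B : ℝ≥0 → Ω → EuclideanSpace ℝ (Fin d)} (hB : ∀ t, Measurable (B t))
    (hBc : ∀ᵐ ω ∂P, Continuous fun t ↦ B t ω i₀)
    {w : ℝ≥0 → Ω → ℝ} (hw : ∀ t, Measurable[ℱ t] (w t)) (hwc : ∀ ω, Continuous fun t ↦ w t ω)
    (hwB : ∀ᵐ ω ∂P, ∀ t, w t ω = B t ω i₀) :
    IsItoIntegral ℱ P B T (fun s ω ↦ K c T (τ ω) s • e i₀)
      (fun t ω ↦ J c T (τ ω) (fun s ↦ w s ω) t) := by
  have hNmeas : Measurable fun ω ↦ NN T (τ ω) :=
    (measurable_NN T hT).comp (measurable_tau hτ hτT)
  have hmesh : Tendsto (fun m : ℕ ↦ (T : ℝ) / (m + 1)) atTop (𝓝 0) := by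
    have := (tendsto_one_div_add_atTop_nhds_zero_nat (𝕜 := ℝ)).const_mul (T : ℝ)
    simpa [div_eq_mul_inv] using this
  refine ⟨Hm i₀ c T τ hτ, ?_, ?_⟩
  · intro ε hε
    refine tendsto_measure_of_eventually_notMem (E := fun m ↦ (fun ω ↦ NN T (τ ω)) ⁻¹'
      {n | ¬ (n ≤ m ∧ ENNReal.ofReal (∑ k ∈ range n, |c k|) ^ 2 *
        ENNReal.ofReal ((T : ℝ) / (m + 1)) < ε)}) ?_ ?_ ?_
    · intro m
      exact hNmeas (MeasurableSet.of_discrete)
    · intro m
      refine Eventually.of_forall fun ω hω ↦ ?_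
      simp only [Set.mem_preimage, Set.mem_ofPred_eq]
      rintro ⟨h1, h2⟩
      exact absurd (hω.trans (lintegral_sq_le i₀ c hT hτ (hτT ω) h1)) (not_le.2 h2)
    · refine Eventually.of_forall fun ω ↦ ?_
      have h1 : Tendsto (fun m : ℕ ↦ ENNReal.ofReal (∑ k ∈ range (NN T (τ ω)), |c k|) ^ 2 *
          ENNReal.ofReal ((T : ℝ) / (m + 1))) atTop (𝓝 (ENNReal.ofReal
          (∑ k ∈ range (NN T (τ ω)), |c k|) ^ 2 * ENNReal.ofReal 0)) := by
        refine ENNReal.Tendsto.const_mul (ENNReal.tendsto_ofReal hmesh) (Or.inr ?_)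
        exact ENNReal.pow_ne_top ENNReal.ofReal_ne_top
      rw [ENNReal.ofReal_zero, mul_zero] at h1
      filter_upwards [eventually_ge_atTop (NN T (τ ω)), h1.eventually_lt_const hε] with m h2 h3
      simp only [Set.mem_preimage, Set.mem_ofPred_eq, not_not]
      exact ⟨h2, h3⟩
  · intro ε hε
    have hQmeas : ∀ (m : ℕ) (t : ℝ≥0), Measurable fun ω ↦
        (Hm (ℱ := ℱ) i₀ c T τ hτ m).integral B t ω - J c T (τ ω) (fun s ↦ w s ω) t := by
      intro m t
      refine Measurable.sub ?_ ?_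
      · unfold SimpleIntegrand.integral
        refine Finset.measurable_sum _ fun i _ ↦ ?_
        refine Measurable.inner ?_ ((hB _).sub (hB _))
        exact ((Hm (ℱ := ℱ) i₀ c T τ hτ m).measurable_h i).mono (ℱ.le _) le_rfl
      · have hwp : IsStronglyProgressive ℱ w :=
          StronglyAdapted.isStronglyProgressive_of_continuous
            (fun t ↦ (hw t).stronglyMeasurable) hwc
        exact ((progressive_J hτ hτT c hwp).stronglyAdapted t).measurable.mono (ℱ.le t) le_rfl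
    refine tendsto_measure_of_eventually_notMem (E := fun m ↦ ⋃ q : ℕ, {ω | ε / 2 <
      |(Hm (ℱ := ℱ) i₀ c T τ hτ m).integral B (min (TopologicalSpace.denseSeq ℝ≥0 q) T) ω -
        J c T (τ ω) (fun s ↦ w s ω) (min (TopologicalSpace.denseSeq ℝ≥0 q) T)|}) ?_ ?_ ?_
    · intro m
      refine MeasurableSet.iUnion fun q ↦ ?_
      exact measurableSet_lt measurable_const ((hQmeas m _).abs)
    · intro m
      filter_upwards [hBc] with ω hω hS
      obtain ⟨t, ht, hε2⟩ := hS
      choose ρ hρ1 hρ2 hρ3 hρ4 using fun k ↦ exists_rho hT m k (hτT ω).le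
      have hcont : Continuous fun t ↦
          (Hm (ℱ := ℱ) i₀ c T τ hτ m).integral B t ω - J c T (τ ω) (fun s ↦ w s ω) t := by
        simp_rw [Hm_integral i₀ c hτ m ω ρ (fun k _ ↦ hρ4 k) B]
        refine Continuous.sub ?_ (continuous_J (hwc ω))
        refine continuous_finsetSum _ fun k _ ↦ ?_
        have h1 : Continuous fun t ↦ B (min t (ρ k)) ω i₀ :=
          hω.comp (continuous_id.min continuous_const)
        have h2 : Continuous fun t ↦ B (min t (u T k)) ω i₀ :=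
          hω.comp (continuous_id.min continuous_const)
        exact continuous_const.mul (h1.sub h2)
      have hopen : IsOpen {s : ℝ≥0 | ε / 2 <
          |(Hm (ℱ := ℱ) i₀ c T τ hτ m).integral B (min s T) ω -
            J c T (τ ω) (fun s ↦ w s ω) (min s T)|} := by
        have h3 : Continuous fun s : ℝ≥0 ↦ min s T := continuous_id.min continuous_const
        exact isOpen_lt continuous_const ((hcont.comp h3).abs)
      obtain ⟨q, hq⟩ := (TopologicalSpace.denseRange_denseSeq ℝ≥0).exists_mem_open hopen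
        ⟨t, by
          show ε / 2 < |(Hm (ℱ := ℱ) i₀ c T τ hτ m).integral B (min t T) ω -
            J c T (τ ω) (fun s ↦ w s ω) (min t T)|
          rw [min_eq_left ht]
          linarith⟩
      exact Set.mem_iUnion.2 ⟨q, hq⟩
    · filter_upwards [hBc, hwB] with ω hω hωB
      have hwB' : (fun s ↦ w s ω) = fun s ↦ B s ω i₀ := funext hωB
      set C : ℝ := ∑ k ∈ range (NN T (τ ω)), |c k| with hC
      have hC0 : 0 ≤ C := Finset.sum_nonneg fun k _ ↦ abs_nonneg _
      have huc : UniformContinuousOn (fun t ↦ B t ω i₀) (Icc 0 T) :=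
        isCompact_Icc.uniformContinuousOn_of_continuous hω.continuousOn
      rw [Metric.uniformContinuousOn_iff] at huc
      obtain ⟨δ, hδ, huc⟩ := huc (ε / (2 * (C + 1))) (by positivity)
      filter_upwards [eventually_ge_atTop (NN T (τ ω)), hmesh.eventually_lt_const hδ] with m h1 h2
      rw [Set.mem_iUnion]
      rintro ⟨q, hq⟩
      have h3 := Hm_integral_sub i₀ c hT hτ (hτT ω) h1 B (η := ε / (2 * (C + 1))) (by
        intro s t hs ht hst hts
        have h4 := huc t ⟨zero_le, ht⟩ s ⟨zero_le, hs⟩ (by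
          rw [NNReal.dist_eq, abs_of_nonneg (sub_nonneg.2 (by exact_mod_cast hst))]
          have h5 : (t : ℝ) ≤ s + T / (m + 1) := by exact_mod_cast hts
          linarith)
        rw [Real.dist_eq] at h4
        exact h4.le) (min (TopologicalSpace.denseSeq ℝ≥0 q) T)
      have h6 : C * (ε / (2 * (C + 1))) ≤ ε / 2 := by
        rw [mul_div_assoc', div_le_div_iff₀ (by positivity) (by norm_num)]
        nlinarith
      simp only [Set.mem_ofPred_eq] at hq
      rw [hwB'] at hq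
      linarith

end Pool.Agent.Lib.MP_3fc9e2_pr
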