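import Mathlib

set_option autoImplicit false

open MeasureTheory ProbabilityTheory Filter Topology Set Finset
open scoped NNReal ENNReal

namespace Pool.Agent.Lib.MP_3fc9e2_pr

/-- dyadic times in `[0,T]` -/
noncomputable def dy (T : ℝ≥0) (n i : ℕ) : ℝ≥0 := T * i / 2 ^ n

/-- largest increment of level `n` of the path `w` -/
noncomputable def Mn (T : ℝ≥0) (w : ℝ≥0 → ℝ) (n : ℕ) : ℝ≥0∞ :=
  ⨆ i ∈ range (2 ^ n), ‖w (dy T n (i + 1)) - w (dy T n i)‖ₑ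

/-- the chaining bound -/
noncomputable def GG (T : ℝ≥0) (w : ℝ≥0 → ℝ) : ℝ≥0∞ := ∑' n, Mn T w n

lemma enorm_dy_le (T : ℝ≥0) (w : ℝ≥0 → ℝ) (h0 : w 0 = 0) (m : ℕ) :
    ∀ k ≤ 2 ^ m, ‖w (dy T m k)‖ₑ ≤ ∑ n ∈ range (m + 1), Mn T w n := by
  induction m with
  | zero =>
    intro k hk
    rw [pow_zero] at hk
    rw [zero_add, Finset.sum_range_one]
    interval_cases k
    · simp [dy, h0]
    · have h1 : w (dy T 0 1) = w (dy T 0 (0 + 1)) - w (dy T 0 0) := by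
        simp [dy, h0]
      rw [h1, Mn]
      exact le_iSup₂_of_le 0 (by simp) le_rfl
  | succ m ih =>
    intro k hk
    rw [Finset.sum_range_succ]
    have hdy : ∀ j, dy T (m + 1) (2 * j) = dy T m j := by
      intro j
      unfold dy
      push_cast
      rw [pow_succ]
      field_simp
    rcases Nat.even_or_odd' k with ⟨j, rfl | rfl⟩
    · rw [hdy]
      exact (ih j (by rw [pow_succ] at hk; omega)).trans le_self_add
    · have h1 : w (dy T (m + 1) (2 * j + 1)) = w (dy T m j) +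
          (w (dy T (m + 1) (2 * j + 1)) - w (dy T (m + 1) (2 * j))) := by
        rw [hdy]; ring
      rw [h1]
      refine (enorm_add_le _ _).trans ?_
      refine add_le_add (ih j (by rw [pow_succ] at hk; omega)) ?_
      rw [Mn]
      exact le_iSup₂_of_le (2 * j) (by rw [Finset.mem_range]; omega) le_rfl

lemma enorm_le_GG {T : ℝ≥0} (hT : 0 < T) (w : ℝ≥0 → ℝ) (h0 : w 0 = 0) (hw : Continuous w)
    {t : ℝ≥0} (ht : t ≤ T) : ‖w t‖ₑ ≤ GG T w := by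
  have hT' : (0 : ℝ) < T := by exact_mod_cast hT
  have ht' : (t : ℝ) ≤ T := by exact_mod_cast ht
  set k : ℕ → ℕ := fun m ↦ ⌊(t : ℝ) / T * 2 ^ m⌋₊ with hk
  have hk1 : ∀ m, (k m : ℝ) ≤ (t : ℝ) / T * 2 ^ m := fun m ↦
    Nat.floor_le (by positivity)
  have hk2 : ∀ m, (t : ℝ) / T * 2 ^ m < k m + 1 := fun m ↦ Nat.lt_floor_add_one _
  have hk3 : ∀ m, k m ≤ 2 ^ m := by
    intro m
    have h1 : (k m : ℝ) ≤ 2 ^ m := by
      refine (hk1 m).trans ?_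
      have : (t : ℝ) / T ≤ 1 := (div_le_one hT').2 ht'
      have h2 : (0 : ℝ) < 2 ^ m := by positivity
      nlinarith
    exact_mod_cast h1
  have hlim : Tendsto (fun m ↦ dy T m (k m)) atTop (𝓝 t) := by
    rw [← NNReal.tendsto_coe]
    have hc : ∀ m, ((dy T m (k m) : ℝ≥0) : ℝ) = T * k m / 2 ^ m := by
      intro m; unfold dy; push_cast; rfl
    simp_rw [hc]
    have hup : ∀ m, (T : ℝ) * k m / 2 ^ m ≤ t := by
      intro m
      rw [div_le_iff₀ (by positivity)]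
      have := hk1 m
      rw [div_mul_eq_mul_div, le_div_iff₀ hT'] at this
      linarith
    have hlo : ∀ m, (t : ℝ) - T * (1 / 2) ^ m ≤ (T : ℝ) * k m / 2 ^ m := by
      intro m
      have h1 := hk2 m
      rw [div_mul_eq_mul_div, div_lt_iff₀ hT'] at h1
      rw [le_div_iff₀ (by positivity), sub_mul, mul_assoc, ← mul_pow]
      norm_num
      linarith
    refine tendsto_of_tendsto_of_tendsto_of_le_of_le ?_ tendsto_const_nhds hlo hup
    have h2 : Tendsto (fun m : ℕ ↦ (t : ℝ) - T * (1 / 2) ^ m) atTop (𝓝 (t - T * 0)) :=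
      tendsto_const_nhds.sub ((tendsto_pow_atTop_nhds_zero_of_lt_one (by norm_num)
        (by norm_num)).const_mul _)
    simpa using h2
  have hlim2 : Tendsto (fun m ↦ ‖w (dy T m (k m))‖ₑ) atTop (𝓝 ‖w t‖ₑ) :=
    (hw.enorm.tendsto t).comp hlim
  refine le_of_tendsto hlim2 (Eventually.of_forall fun m ↦ ?_)
  exact (enorm_dy_le T w h0 m (k m) (hk3 m)).trans (ENNReal.sum_le_tsum _)

lemma lintegral_gaussian_pow (v : ℝ≥0) (p : ℕ) :
    ∫⁻ x, ‖x‖ₑ ^ (2 * p) ∂(gaussianReal 0 v)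
      = (v : ℝ≥0∞) ^ p * ∫⁻ x, ‖x‖ₑ ^ (2 * p) ∂(gaussianReal 0 1) := by
  have h1 : (gaussianReal 0 1).map ((NNReal.sqrt v : ℝ) * ·) = gaussianReal 0 v := by
    rw [gaussianReal_map_const_mul]
    congr 1
    · simp
    · rw [← NNReal.coe_inj]
      push_cast
      rw [mul_one, Real.sq_sqrt v.coe_nonneg]
  rw [← h1, lintegral_map (by fun_prop) (by fun_prop), ← lintegral_const_mul _ (by fun_prop)]
  refine lintegral_congr fun x ↦ ?_
  rw [enorm_mul, mul_pow]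
  congr 1
  rw [pow_mul]
  congr 1
  have h2 : ‖((NNReal.sqrt v : ℝ≥0) : ℝ)‖ₑ = ((NNReal.sqrt v : ℝ≥0) : ℝ≥0∞) := by
    rw [enorm_eq_nnnorm, NNReal.nnnorm_eq]
  rw [h2, ← ENNReal.coe_pow, NNReal.sq_sqrt]

lemma lintegral_gaussian_pow_lt_top (p : ℕ) :
    ∫⁻ x, ‖x‖ₑ ^ (2 * p) ∂(gaussianReal 0 1) < ∞ := by
  rcases Nat.eq_zero_or_pos p with rfl | hp
  · simp
  have h := memLp_id_gaussianReal (μ := 0) (v := 1) ((2 * p : ℕ) : ℝ≥0)
  have h2 := h.eLpNorm_lt_top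
  have h3 : (((2 * p : ℕ) : ℝ≥0) : ℝ≥0∞) ≠ 0 := by
    rw [ENNReal.coe_ne_zero]; positivity
  rw [eLpNorm_lt_top_iff_lintegral_rpow_enorm_lt_top h3 ENNReal.coe_ne_top] at h2
  refine lt_of_eq_of_lt ?_ h2
  refine lintegral_congr fun x ↦ ?_
  simp only [id]
  rw [ENNReal.coe_toReal, NNReal.coe_natCast, ENNReal.rpow_natCast]

variable {Ω : Type*} {mΩ : MeasurableSpace Ω} {P : Measure Ω} {b : ℝ≥0 → Ω → ℝ}

lemma aemeasurable_Mn (hb : ∀ t, AEMeasurable (b t) P) (T : ℝ≥0) (n : ℕ) :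
    AEMeasurable (fun ω ↦ Mn T (fun t ↦ b t ω) n) P := by
  unfold Mn
  refine AEMeasurable.biSup (f := fun i ω ↦ ‖b (dy T n (i + 1)) ω - b (dy T n i) ω‖ₑ)
    _ (Set.to_countable _) ?_
  intro i _
  exact ((hb _).sub (hb _)).enorm

lemma lintegral_Mn_le (hb : IsPreBrownianReal b P) (T : ℝ≥0) (n p : ℕ) :
    ∫⁻ ω, (Mn T (fun t ↦ b t ω) n) ^ (2 * p) ∂P
      ≤ 2 ^ n * ((T : ℝ≥0∞) / 2 ^ n) ^ p * ∫⁻ x, ‖x‖ₑ ^ (2 * p) ∂(gaussianReal 0 1) := by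
  have h1 : ∀ ω, (Mn T (fun t ↦ b t ω) n) ^ (2 * p) ≤
      ∑ i ∈ range (2 ^ n), ‖b (dy T n (i + 1)) ω - b (dy T n i) ω‖ₑ ^ (2 * p) := by
    intro ω
    rcases Nat.eq_zero_or_pos p with rfl | hp
    · simp
      exact_mod_cast Nat.one_le_two_pow
    have hne : (range (2 ^ n)).Nonempty := ⟨0, by simp⟩
    obtain ⟨i, hi, hmax⟩ := Finset.exists_max_image (range (2 ^ n))
      (fun i ↦ ‖b (dy T n (i + 1)) ω - b (dy T n i) ω‖ₑ) hne
    have h2 : Mn T (fun t ↦ b t ω) n = ‖b (dy T n (i + 1)) ω - b (dy T n i) ω‖ₑ := by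
      unfold Mn
      apply le_antisymm
      · exact iSup₂_le fun j hj ↦ hmax j hj
      · exact le_iSup₂_of_le i hi le_rfl
    rw [h2]
    exact Finset.single_le_sum
      (f := fun i ↦ ‖b (dy T n (i + 1)) ω - b (dy T n i) ω‖ₑ ^ (2 * p))
      (fun _ _ ↦ zero_le) hi
  refine (lintegral_mono h1).trans ?_
  have hmeas : ∀ i, AEMeasurable (fun ω ↦
      ‖b (dy T n (i + 1)) ω - b (dy T n i) ω‖ₑ ^ (2 * p)) P :=
    fun i ↦ (((hb.aemeasurable _).sub (hb.aemeasurable _)).enorm).pow_const _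
  rw [lintegral_finsetSum' _ (fun i _ ↦ hmeas i)]
  have h3 : ∀ i ∈ range (2 ^ n), ∫⁻ ω, ‖b (dy T n (i + 1)) ω - b (dy T n i) ω‖ₑ ^ (2 * p) ∂P
      = ((T : ℝ≥0∞) / 2 ^ n) ^ p * ∫⁻ x, ‖x‖ₑ ^ (2 * p) ∂(gaussianReal 0 1) := by
    intro i _
    have hl := hb.hasLaw_sub (dy T n (i + 1)) (dy T n i)
    have h4 := hl.lintegral_comp (f := fun x : ℝ ↦ ‖x‖ₑ ^ (2 * p)) (by fun_prop)
    simp only [Pi.sub_apply] at h4
    rw [h4, lintegral_gaussian_pow]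
    congr 2
    have h5 : nndist (dy T n (i + 1)).1 (dy T n i).1 = T / 2 ^ n := by
      rw [← NNReal.coe_inj, coe_nndist, Real.dist_eq]
      show |((dy T n (i + 1) : ℝ≥0) : ℝ) - ((dy T n i : ℝ≥0) : ℝ)| = _
      unfold dy
      push_cast
      rw [show (T : ℝ) * (i + 1) / 2 ^ n - T * i / 2 ^ n = T / 2 ^ n by ring]
      exact abs_of_nonneg (by positivity)
    rw [h5, ENNReal.coe_div (by positivity)]
    push_cast
    rfl
  rw [Finset.sum_congr rfl h3, Finset.sum_const, Finset.card_range, nsmul_eq_mul]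
  push_cast
  rw [mul_assoc]

lemma aemeasurable_GG (hb : ∀ t, AEMeasurable (b t) P) (T : ℝ≥0) :
    AEMeasurable (fun ω ↦ GG T (fun t ↦ b t ω)) P := by
  unfold GG
  exact AEMeasurable.tsum fun n ↦ aemeasurable_Mn hb T n

/-- Weighted comparison of a series with its terms. -/
lemma tsum_pow_le (x : ℕ → ℝ≥0∞) (q : ℕ) (hq : q ≠ 0) :
    (∑' n, x n) ^ q ≤ 5 ^ q * ∑' n, ((5 / 4 : ℝ≥0∞) ^ n * x n) ^ q := by
  set S : ℝ≥0∞ := ⨆ n, (5 / 4 : ℝ≥0∞) ^ n * x n with hS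
  have h54 : (4 / 5 : ℝ≥0∞) * (5 / 4) = 1 := by
    rw [← ENNReal.inv_div (by simp) (by simp)]
    refine ENNReal.inv_mul_cancel ?_ ?_
    · simp
    · exact ENNReal.div_ne_top (by simp) (by simp)
  have h1 : ∀ n, x n ≤ (4 / 5 : ℝ≥0∞) ^ n * S := by
    intro n
    calc x n = (4 / 5 : ℝ≥0∞) ^ n * ((5 / 4 : ℝ≥0∞) ^ n * x n) := by
          rw [← mul_assoc, ← mul_pow, h54, one_pow, one_mul]
      _ ≤ _ := by
          gcongr
          exact le_iSup (fun n ↦ (5 / 4 : ℝ≥0∞) ^ n * x n) n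
  have h2 : ∑' n, x n ≤ 5 * S := by
    refine (ENNReal.tsum_le_tsum h1).trans ?_
    rw [ENNReal.tsum_mul_right, ENNReal.tsum_geometric]
    gcongr
    rw [ENNReal.inv_le_iff_inv_le]
    have : (5 : ℝ≥0∞)⁻¹ + 4 / 5 = 1 := by
      rw [div_eq_mul_inv, ← one_mul (5 : ℝ≥0∞)⁻¹, ← mul_assoc, ← add_mul, mul_one]
      norm_num
      exact ENNReal.mul_inv_cancel (by simp) (by simp)
    exact (ENNReal.le_sub_of_add_le_right (ENNReal.div_ne_top (by simp) (by simp)) this.le)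
  have h3 : S ^ q ≤ ∑' n, ((5 / 4 : ℝ≥0∞) ^ n * x n) ^ q := by
    have h4 : ∀ n, (5 / 4 : ℝ≥0∞) ^ n * x n ≤
        (∑' n, ((5 / 4 : ℝ≥0∞) ^ n * x n) ^ q) ^ ((q : ℝ)⁻¹) := by
      intro n
      rw [ENNReal.le_rpow_inv_iff (by positivity), ENNReal.rpow_natCast]
      exact ENNReal.le_tsum n
    have h5 : S ≤ (∑' n, ((5 / 4 : ℝ≥0∞) ^ n * x n) ^ q) ^ ((q : ℝ)⁻¹) := iSup_le h4
    rw [ENNReal.le_rpow_inv_iff (by positivity), ENNReal.rpow_natCast] at h5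
    exact h5
  calc (∑' n, x n) ^ q ≤ (5 * S) ^ q := by gcongr
    _ = 5 ^ q * S ^ q := mul_pow _ _ _
    _ ≤ _ := by gcongr

lemma lintegral_GG_pow_lt_top (hb : IsPreBrownianReal b P) (T : ℝ≥0) {p : ℕ} (hp : 4 ≤ p) :
    ∫⁻ ω, (GG T (fun t ↦ b t ω)) ^ (2 * p) ∂P < ∞ := by
  set m : ℝ≥0∞ := ∫⁻ x, ‖x‖ₑ ^ (2 * p) ∂(gaussianReal 0 1) with hm
  have hmtop : m < ∞ := lintegral_gaussian_pow_lt_top p
  have h1 : ∫⁻ ω, (GG T (fun t ↦ b t ω)) ^ (2 * p) ∂P ≤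
      5 ^ (2 * p) * ∑' n : ℕ, (T : ℝ≥0∞) ^ p * m * (2 * (25 / 32) ^ p) ^ n := by
    refine (lintegral_mono fun ω ↦ tsum_pow_le _ _ (by omega)).trans ?_
    have hmeas : ∀ n, AEMeasurable (fun ω ↦
        ((5 / 4 : ℝ≥0∞) ^ n * Mn T (fun t ↦ b t ω) n) ^ (2 * p)) P := fun n ↦
      ((aemeasurable_Mn (fun t ↦ hb.aemeasurable t) T n).const_mul _).pow_const _
    rw [lintegral_const_mul'' _ (AEMeasurable.tsum hmeas), lintegral_tsum hmeas]
    refine mul_le_mul_right ?_ _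
    refine ENNReal.tsum_le_tsum fun n ↦ ?_
    simp_rw [mul_pow]
    rw [lintegral_const_mul'' _ ((aemeasurable_Mn (fun t ↦ hb.aemeasurable t) T n).pow_const _)]
    refine (mul_le_mul_right (lintegral_Mn_le hb T n p) _).trans (le_of_eq ?_)
    rw [← hm]
    clear_value m
    lift m to ℝ≥0 using hmtop.ne
    have e1 : (5 / 4 : ℝ≥0∞) = ((5 / 4 : ℝ≥0) : ℝ≥0∞) := by
      rw [ENNReal.coe_div (by norm_num)]; rfl
    have e2 : (25 / 32 : ℝ≥0∞) = ((25 / 32 : ℝ≥0) : ℝ≥0∞) := by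
      rw [ENNReal.coe_div (by norm_num)]; rfl
    have e3 : (T : ℝ≥0∞) / 2 ^ n = ((T / 2 ^ n : ℝ≥0) : ℝ≥0∞) := by
      rw [ENNReal.coe_div (by positivity)]
      push_cast
      rfl
    rw [e1, e2, e3]
    norm_cast
    rw [← NNReal.coe_inj]
    push_cast
    have r1 : ((5 / 4 : ℝ) ^ n) ^ (2 * p) = ((25 / 16) ^ p) ^ n := by
      rw [← pow_mul, ← pow_mul, mul_comm n, mul_assoc, pow_mul (5 / 4 : ℝ) 2]
      norm_num
    have r2 : ((T : ℝ) / 2 ^ n) ^ p = T ^ p / (2 ^ p) ^ n := by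
      rw [div_pow, ← pow_mul, ← pow_mul, mul_comm n]
    have r3 : (25 / 32 : ℝ) ^ p = (25 / 16) ^ p / 2 ^ p := by
      rw [← div_pow]; norm_num
    rw [r1, r2, r3, div_pow]
    ring
  refine lt_of_le_of_lt h1 ?_
  rw [ENNReal.tsum_mul_left, ENNReal.tsum_geometric]
  refine ENNReal.mul_lt_top (ENNReal.pow_lt_top (by simp)) (ENNReal.mul_lt_top
    (ENNReal.mul_lt_top (ENNReal.pow_lt_top ENNReal.coe_lt_top) hmtop) ?_)
  rw [ENNReal.inv_lt_top, tsub_pos_iff_lt]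
  have e2 : (25 / 32 : ℝ≥0∞) = ((25 / 32 : ℝ≥0) : ℝ≥0∞) := by
    rw [ENNReal.coe_div (by norm_num)]; rfl
  rw [e2]
  have h2 : (25 / 32 : ℝ≥0) ^ p ≤ (25 / 32) ^ 4 :=
    pow_le_pow_of_le_one (by positivity) (by
      rw [div_le_one (by norm_num)]; norm_num) hp
  have h3 : 2 * (25 / 32 : ℝ≥0) ^ 4 < 1 := by
    rw [← NNReal.coe_lt_coe]
    push_cast
    norm_num
  have h4 : 2 * (25 / 32 : ℝ≥0) ^ p < 1 := lt_of_le_of_lt (by gcongr) h3
  exact_mod_cast h4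

lemma lintegral_GG_pow_lt_top' [IsProbabilityMeasure P] (hb : IsPreBrownianReal b P) (T : ℝ≥0)
    (q : ℕ) : ∫⁻ ω, (GG T (fun t ↦ b t ω)) ^ q ∂P < ∞ := by
  have h1 : ∀ ω, (GG T (fun t ↦ b t ω)) ^ q ≤ 1 + (GG T (fun t ↦ b t ω)) ^ (2 * (q + 4)) := by
    intro ω
    rcases le_total (GG T (fun t ↦ b t ω)) 1 with h | h
    · exact (pow_le_one' h q).trans le_self_add
    · exact (pow_le_pow_right₀ h (by omega)).trans le_add_self
  refine lt_of_le_of_lt (lintegral_mono h1) ?_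
  rw [lintegral_add_left measurable_const]
  refine ENNReal.add_lt_top.2 ⟨by simp, lintegral_GG_pow_lt_top hb T (by omega)⟩

end Pool.Agent.Lib.MP_3fc9e2_pr
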