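import Pool.Agent.Lib.MP_3fc9e2_pr.Ito
import Pool.Agent.Lib.MP_3fc9e2_pr.Moment

set_option autoImplicit false

open MeasureTheory ProbabilityTheory Filter Topology Set Finset
open scoped NNReal ENNReal

namespace Pool.Agent.Lib.MP_3fc9e2_pr

/-! ### The algebra of the two integrands -/

lemma one_le_NN {T τ : ℝ≥0} (h0 : 0 < τ) (hT : τ < T) : 1 ≤ NN T τ := by
  by_contra h
  have h1 : NN T τ ≤ 0 := by omega
  have := le_u_of_NN_le hT h1
  rw [u_zero] at this
  exact absurd this (not_le.2 h0)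

lemma J_c₂ {T τ : ℝ≥0} (h0 : 0 < τ) (hT : τ < T) (v : ℝ≥0 → ℝ) (t : ℝ≥0) :
    J c₂ T τ v t = J c₁ T τ v t + Real.pi / 2 * (v (min t τ) - v 0) := by
  unfold J
  have h1 : ∀ k, c₂ k = c₁ k + if k = 0 then Real.pi / 2 else 0 := fun k ↦ rfl
  simp_rw [h1, add_mul, Finset.sum_add_distrib, ite_mul, zero_mul]
  rw [Finset.sum_ite_eq' (range (NN T τ)) 0, if_pos (Finset.mem_range.2 (one_le_NN h0 hT))]
  simp

lemma K_c₂ {T τ : ℝ≥0} (h0 : 0 < τ) (hT : τ < T) (s : ℝ≥0) (hs : s < τ) :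
    K c₂ T τ s = K c₁ T τ s + Real.pi / 2 := by
  unfold K
  have h1 : ∀ k, (Ico (u T k) τ).indicator (fun _ ↦ c₂ k) s =
      (Ico (u T k) τ).indicator (fun _ ↦ c₁ k) s + if k = 0 then Real.pi / 2 else 0 := by
    intro k
    by_cases hk : k = 0
    · subst hk
      have h2 : s ∈ Ico (u T 0) τ := ⟨by simp, hs⟩
      rw [indicator_of_mem h2, indicator_of_mem h2, if_pos rfl]
      rfl
    · rw [if_neg hk, add_zero]
      have h3 : c₂ k = c₁ k := by unfold c₂ c₁; rw [if_neg hk, add_zero]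
      rw [h3]
  simp_rw [h1, Finset.sum_add_distrib]
  rw [Finset.sum_ite_eq' (range (NN T τ)) 0, if_pos (Finset.mem_range.2 (one_le_NN h0 hT))]

lemma exists_nat_K_c₁ (T τ s : ℝ≥0) : ∃ n : ℕ, K c₁ T τ s = n * (2 * Real.pi) := by
  refine ⟨∑ k ∈ range (NN T τ), (Ico (u T k) τ).indicator (fun _ ↦ 4 ^ k) s, ?_⟩
  unfold K
  rw [Nat.cast_sum, Finset.sum_mul]
  refine Finset.sum_congr rfl fun k _ ↦ ?_
  by_cases h : s ∈ Ico (u T k) τ
  · rw [indicator_of_mem h, indicator_of_mem h, c₁]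
    push_cast
    ring
  · rw [indicator_of_notMem h, indicator_of_notMem h]
    simp

lemma gen_c₁ (T τ s : ℝ≥0) : |K c₁ T τ s| * Real.sin |K c₁ T τ s| = 0 := by
  obtain ⟨n, hn⟩ := exists_nat_K_c₁ T τ s
  have hpi := Real.pi_pos
  rw [hn, abs_of_nonneg (by positivity)]
  have : (n : ℝ) * (2 * Real.pi) = ((2 * n : ℕ) : ℝ) * Real.pi := by push_cast; ring
  rw [this, Real.sin_nat_mul_pi, mul_zero]

lemma gen_c₂ {T τ : ℝ≥0} (h0 : 0 < τ) (hT : τ < T) (s : ℝ≥0) :
    |K c₂ T τ s| * Real.sin |K c₂ T τ s| = K c₂ T τ s := by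
  have hpi := Real.pi_pos
  rcases lt_or_ge s τ with hs | hs
  · obtain ⟨n, hn⟩ := exists_nat_K_c₁ T τ s
    rw [K_c₂ h0 hT s hs, hn, abs_of_nonneg (by positivity)]
    have : (n : ℝ) * (2 * Real.pi) + Real.pi / 2 = Real.pi / 2 + n * (2 * Real.pi) := by ring
    rw [this, Real.sin_add_nat_mul_two_pi, Real.sin_pi_div_two, mul_one]
  · rw [K_of_le hs]
    simp

lemma terminal {T : ℝ≥0} (hT : 0 < T) {w : ℝ≥0 → ℝ} (hw : Continuous w) (h0 : w 0 = 0) :
    1 + J c₂ T (tau T w) w T - J c₂ T (tau T w) (fun s ↦ (s : ℝ)) T = J c₁ T (tau T w) w T := by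
  have hτ := tau_lt hT hw
  have hX := X_tau hT hw h0
  unfold X A at hX
  have h1 : J c₂ T (tau T w) (fun s ↦ (s : ℝ)) T =
      J c₂ T (tau T w) (fun s ↦ (s : ℝ)) (tau T w) := by
    unfold J
    rw [min_eq_right hτ.le, min_self]
  rw [h1, J_c₂ (tau_pos hT hw h0) hτ w T, min_eq_right hτ.le, h0]
  linarith

variable {Ω : Type*} {mΩ : MeasurableSpace Ω}

/-! ### Class (D) by domination -/

lemma isClassD_of_dominated {ℱ : Filtration ℝ≥0 mΩ} {P : Measure Ω} [IsProbabilityMeasure P]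
    {T : ℝ≥0} {X : ℝ≥0 → Ω → ℝ} (hX : IsProgressive ℱ X) {g : Ω → ℝ≥0∞}
    (hg : ∫⁻ ω, g ω ∂P < ∞) (hXg : ∀ᵐ ω ∂P, ∀ t ≤ T, ‖X t ω‖ₑ ≤ g ω) :
    IsClassD ℱ P T X := by
  refine ⟨?_, ?_, ?_⟩
  · rintro ⟨τ, hτ, hτT⟩
    have hm : Measurable τ := by
      refine measurable_of_Iic fun a ↦ ?_
      have h1 := (ℱ.le a) _ (hτ a)
      have h2 : τ ⁻¹' Set.Iic a = {ω | ((τ ω : ℝ≥0) : WithTop ℝ≥0) ≤ (a : WithTop ℝ≥0)} := by
        ext ω
        simp only [Set.mem_preimage, Set.mem_Iic, Set.mem_ofPred_eq, WithTop.coe_le_coe]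
      rw [h2]
      exact h1
    have h3 : @Measurable Ω (Set.Iic T × Ω) mΩ (Subtype.instMeasurableSpace.prod (ℱ T))
        (fun ω ↦ ((⟨τ ω, hτT ω⟩ : Set.Iic T), ω)) := by
      exact Measurable.prodMk hm.subtype_mk (measurable_id'' (ℱ.le T))
    exact ((hX T).comp h3).aestronglyMeasurable
  · intro ε hε
    obtain ⟨δ, hδ, h⟩ := exists_pos_setLIntegral_lt_of_measure_lt (μ := P) hg.ne
      (ε := ENNReal.ofReal ε) (by simpa using hε)
    refine ⟨(min δ 1 / 2).toReal, ?_, ?_⟩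
    · refine ENNReal.toReal_pos ?_ ?_
      · simp [hδ.ne']
      · refine ENNReal.div_ne_top ?_ (by simp)
        exact ne_top_of_le_ne_top ENNReal.one_ne_top (min_le_right _ _)
    · rintro ⟨τ, hτ, hτT⟩ s hs hPs
      rw [eLpNorm_one_eq_lintegral_enorm]
      have h1 : P s < δ := by
        refine lt_of_le_of_lt hPs ?_
        rw [ENNReal.ofReal_toReal]
        · refine lt_of_lt_of_le (ENNReal.half_lt_self ?_ ?_) (min_le_left _ _)
          · simp [hδ.ne']
          · exact ne_top_of_le_ne_top ENNReal.one_ne_top (min_le_right _ _)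
        · refine ENNReal.div_ne_top ?_ (by simp)
          exact ne_top_of_le_ne_top ENNReal.one_ne_top (min_le_right _ _)
      refine le_trans ?_ (h s h1).le
      rw [← lintegral_indicator hs]
      refine lintegral_mono_ae ?_
      filter_upwards [hXg] with ω hω
      by_cases hωs : ω ∈ s
      · rw [indicator_of_mem hωs, indicator_of_mem hωs]
        exact hω _ (hτT ω)
      · rw [indicator_of_notMem hωs, indicator_of_notMem hωs]
        simp
  · refine ⟨(∫⁻ ω, g ω ∂P).toNNReal, ?_⟩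
    rintro ⟨τ, hτ, hτT⟩
    rw [ENNReal.coe_toNNReal hg.ne, eLpNorm_one_eq_lintegral_enorm]
    refine lintegral_mono_ae ?_
    filter_upwards [hXg] with ω hω
    exact hω _ (hτT ω)

/-! ### Null sets and the regularised coordinate path -/

section Path

variable {P : Measure Ω} [IsProbabilityMeasure P] [P.IsComplete] {d : ℕ}
  {B : ℝ≥0 → Ω → EuclideanSpace ℝ (Fin d)} (hB : IsBrownianMotion B P) (i₀ : Fin d)

include hB in
lemma measurableSet_null {N : Set Ω} (hN : P N = 0) (t : ℝ≥0) :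
    MeasurableSet[completedFiltration P B hB.measurable t] N := by
  have h1 : MeasurableSpace.generateFrom {N : Set Ω | P N = 0} ≤
      completedFiltration P B hB.measurable t := le_sup_right
  exact h1 _ (MeasurableSpace.measurableSet_generateFrom hN)

include hB in
lemma measurable_B (t : ℝ≥0) :
    Measurable[completedFiltration P B hB.measurable t] (B t) := by
  have h1 : MeasurableSpace.comap (B t) inferInstance ≤
      completedFiltration P B hB.measurable t :=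
    le_trans (le_iSup₂_of_le (f := fun s (_ : s ≤ t) ↦
      MeasurableSpace.comap (B s) inferInstance) t le_rfl le_rfl) le_sup_left
  exact measurable_iff_comap_le.2 h1

/-- The good paths. -/
def good (B : ℝ≥0 → Ω → EuclideanSpace ℝ (Fin d)) (i₀ : Fin d) : Set Ω :=
  {ω | Continuous (fun t ↦ B t ω i₀) ∧ B 0 ω i₀ = 0}

open Classical in
/-- The coordinate path, set to `0` off the good set. -/
noncomputable def ww (B : ℝ≥0 → Ω → EuclideanSpace ℝ (Fin d)) (i₀ : Fin d) (t : ℝ≥0) (ω : Ω) : ℝ :=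
  if ω ∈ good B i₀ then B t ω i₀ else 0

include hB in
lemma ae_good : ∀ᵐ ω ∂P, ω ∈ good B i₀ := by
  filter_upwards [(hB.coord i₀).cont, (hB.coord i₀).eval_zero_ae_eq_zero] with ω h1 h2
  exact ⟨h1, h2⟩

lemma continuous_ww (ω : Ω) : Continuous fun t ↦ ww B i₀ t ω := by
  unfold ww
  by_cases h : ω ∈ good B i₀
  · simp only [if_pos h]
    exact h.1
  · simp only [if_neg h]
    exact continuous_const

lemma ww_zero (ω : Ω) : ww B i₀ 0 ω = 0 := by
  unfold ww
  split_ifs with h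
  · exact h.2
  · rfl

include hB in
lemma ww_eq : ∀ᵐ ω ∂P, ∀ t, ww B i₀ t ω = B t ω i₀ := by
  filter_upwards [ae_good hB i₀] with ω hω t
  unfold ww
  rw [if_pos hω]

include hB in
lemma measurable_ww (t : ℝ≥0) :
    Measurable[completedFiltration P B hB.measurable t] (ww B i₀ t) := by
  have h1 : MeasurableSet[completedFiltration P B hB.measurable t] (good B i₀) := by
    have h2 : P (good B i₀)ᶜ = 0 := ae_good hB i₀
    have h3 := measurableSet_null hB h2 t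
    simpa using h3.compl
  unfold ww
  refine Measurable.ite h1 ?_ measurable_const
  have h4 : Measurable fun v : EuclideanSpace ℝ (Fin d) ↦ v i₀ := by fun_prop
  exact h4.comp (measurable_B hB t)

include hB in
lemma isPreBrownian_ww : IsPreBrownianReal (ww B i₀) P := by
  refine (hB.coord i₀).toIsPreBrownianReal.congr fun t ↦ ?_
  filter_upwards [ww_eq hB i₀] with ω hω
  exact (hω t).symm

end Path

/-! ### Domination -/

lemma lintegral_one_add_pow_lt_top {P : Measure Ω} [IsProbabilityMeasure P]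
    {b : ℝ≥0 → Ω → ℝ} (hb : IsPreBrownianReal b P) (T : ℝ≥0) (q : ℕ) :
    ∫⁻ ω, (1 + GG T (fun t ↦ b t ω)) ^ q ∂P < ∞ := by
  have h1 : ∀ ω, (1 + GG T (fun t ↦ b t ω)) ^ q ≤
      2 ^ q * (1 + (GG T (fun t ↦ b t ω)) ^ q) := by
    intro ω
    set x := GG T (fun t ↦ b t ω)
    rcases le_total x 1 with h | h
    · calc (1 + x) ^ q ≤ (1 + 1) ^ q := by gcongr
        _ = 2 ^ q * 1 := by rw [one_add_one_eq_two, mul_one]
        _ ≤ _ := by gcongr; exact le_self_add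
    · calc (1 + x) ^ q ≤ (x + x) ^ q := by gcongr
        _ = 2 ^ q * x ^ q := by rw [← two_mul, mul_pow]
        _ ≤ _ := by gcongr; exact le_add_self
  refine lt_of_le_of_lt (lintegral_mono h1) ?_
  rw [lintegral_const_mul' _ _ (ENNReal.pow_ne_top (by simp)), lintegral_add_left measurable_const]
  refine ENNReal.mul_lt_top (ENNReal.pow_lt_top (by simp)) (ENNReal.add_lt_top.2 ⟨by simp, ?_⟩)
  exact lintegral_GG_pow_lt_top' hb T q

lemma exists_dominating {P : Measure Ω} [IsProbabilityMeasure P]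
    {w : ℝ≥0 → Ω → ℝ} (hb : IsPreBrownianReal w P) {T : ℝ≥0} (hT : 0 < T)
    (hwc : ∀ ω, Continuous fun t ↦ w t ω) (hw0 : ∀ ω, w 0 ω = 0)
    {V : ℝ≥0 → Ω → ℝ} {R : ℝ} (hR : 0 ≤ R)
    (hV : ∀ ω, ∀ M : ℝ, (∀ t ≤ T, |w t ω| ≤ M) → ∀ t ≤ T, |V t ω| ≤ R * (1 + M) ^ 3)
    {p : ℝ} (hp : 1 < p) :
    ∃ g : Ω → ℝ≥0∞, ∫⁻ ω, g ω ∂P < ∞ ∧ ∀ᵐ ω ∂P, ∀ t ≤ T, ‖V t ω‖ₑ ^ p ≤ g ω := by
  have hp0 : 0 < p := by linarith
  refine ⟨fun ω ↦ ENNReal.ofReal R ^ p * (1 + GG T (fun t ↦ w t ω)) ^ (⌈3 * p⌉₊), ?_, ?_⟩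
  · rw [lintegral_const_mul' _ _ (ENNReal.rpow_ne_top_of_nonneg hp0.le ENNReal.ofReal_ne_top)]
    exact ENNReal.mul_lt_top (ENNReal.rpow_lt_top_of_nonneg hp0.le ENNReal.ofReal_ne_top)
      (lintegral_one_add_pow_lt_top hb T _)
  · have hfin : ∀ᵐ ω ∂P, (GG T (fun t ↦ w t ω)) < ∞ := by
      have h1 := lintegral_GG_pow_lt_top' hb T 1
      simp only [pow_one] at h1
      exact ae_lt_top' (aemeasurable_GG (fun t ↦ hb.aemeasurable t) T) h1.ne
    filter_upwards [hfin] with ω hω t ht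
    have hM : ∀ t ≤ T, |w t ω| ≤ (GG T (fun t ↦ w t ω)).toReal := by
      intro t ht
      have h2 := enorm_le_GG hT (fun t ↦ w t ω) (hw0 ω) (hwc ω) ht
      rw [← ofReal_norm, Real.norm_eq_abs] at h2
      exact (ENNReal.ofReal_le_iff_le_toReal hω.ne).1 h2
    have h3 := hV ω _ hM t ht
    have h4 : ‖V t ω‖ₑ ≤ ENNReal.ofReal R * (1 + GG T (fun t ↦ w t ω)) ^ 3 := by
      rw [← ofReal_norm, Real.norm_eq_abs]
      refine (ENNReal.ofReal_le_ofReal h3).trans (le_of_eq ?_)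
      rw [ENNReal.ofReal_mul hR, ENNReal.ofReal_pow (by positivity),
        ENNReal.ofReal_add zero_le_one ENNReal.toReal_nonneg, ENNReal.ofReal_one,
        ENNReal.ofReal_toReal hω.ne]
    calc ‖V t ω‖ₑ ^ p ≤ (ENNReal.ofReal R * (1 + GG T (fun t ↦ w t ω)) ^ 3) ^ p := by gcongr
      _ = ENNReal.ofReal R ^ p * (1 + GG T (fun t ↦ w t ω)) ^ (3 * p) := by
        rw [ENNReal.mul_rpow_of_nonneg _ _ hp0.le, ← ENNReal.rpow_natCast, ← ENNReal.rpow_mul]
        norm_num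
      _ ≤ _ := by
        rw [← ENNReal.rpow_natCast]
        gcongr
        · exact le_self_add
        · exact Nat.le_ceil _

end Pool.Agent.Lib.MP_3fc9e2_pr
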