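import Pool.Agent.Lib.MP_3fc9e2_pr.Approx

set_option autoImplicit false

open MeasureTheory ProbabilityTheory Filter Topology Set Finset
open scoped NNReal ENNReal

namespace Pool.Agent.Lib.MP_3fc9e2_pr

section Aux

variable {α : Type*} [MeasurableSpace α]

lemma aux_measurableSet (i : ℝ≥0) (τ : α → ℝ≥0) (h1 : Measurable fun ω ↦ min (τ ω) i)
    (h2 : MeasurableSet {ω | i < τ ω}) (a : ℝ≥0) :
    MeasurableSet {p : Set.Iic i × α | a ≤ (p.1 : ℝ≥0) ∧ (p.1 : ℝ≥0) < τ p.2} := by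
  have hp1 : Measurable fun p : Set.Iic i × α ↦ (p.1 : ℝ≥0) :=
    measurable_subtype_coe.comp measurable_fst
  have hp2 : Measurable fun p : Set.Iic i × α ↦ min (τ p.2) i := h1.comp measurable_snd
  have heq : {p : Set.Iic i × α | a ≤ (p.1 : ℝ≥0) ∧ (p.1 : ℝ≥0) < τ p.2}
      = {p | a ≤ (p.1 : ℝ≥0)} ∩ (({p | (p.1 : ℝ≥0) < i} ∩ {p | (p.1 : ℝ≥0) < min (τ p.2) i}) ∪
        ({p | (p.1 : ℝ≥0) = i} ∩ {p | i < τ p.2})) := by
    ext p
    have hpi : (p.1 : ℝ≥0) ≤ i := p.1.2
    constructor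
    · rintro ⟨h3, h4⟩
      refine ⟨h3, ?_⟩
      rcases hpi.lt_or_eq with h | h
      · exact Or.inl ⟨h, lt_min h4 h⟩
      · right
        exact ⟨h, lt_of_eq_of_lt h.symm h4⟩
    · rintro ⟨h3, h4 | h4⟩
      · exact ⟨h3, (lt_min_iff.1 h4.2).1⟩
      · refine ⟨h3, ?_⟩
        rw [h4.1]
        exact h4.2
  rw [heq]
  refine (measurableSet_le measurable_const hp1).inter (MeasurableSet.union ?_ ?_)
  · exact (measurableSet_lt hp1 measurable_const).inter (measurableSet_lt hp1 hp2)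
  · exact (measurableSet_eq_fun hp1 measurable_const).inter (measurable_snd h2)

lemma aux_measurable_min (i : ℝ≥0) (τ : α → ℝ≥0)
    (h : ∀ a < i, MeasurableSet {ω | a < τ ω}) : Measurable fun ω ↦ min (τ ω) i := by
  refine measurable_of_Ioi fun a ↦ ?_
  by_cases ha : a < i
  · have : (fun ω ↦ min (τ ω) i) ⁻¹' Ioi a = {ω | a < τ ω} := by
      ext ω
      simp [ha]
    rw [this]
    exact h a ha
  · have : (fun ω ↦ min (τ ω) i) ⁻¹' Ioi a = ∅ := by
      ext ω
      simp [ha]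
    rw [this]
    exact MeasurableSet.empty

/-- Positivity of a continuous process on `[0,a]` is a measurable condition. -/
lemma aux_measurableSet_pos (a : ℝ≥0) (Y : ℝ≥0 → α → ℝ)
    (hY : ∀ t ≤ a, Measurable (Y t)) (hc : ∀ ω, Continuous fun t ↦ Y t ω) :
    MeasurableSet {ω | ∀ t ≤ a, 0 < Y t ω} := by
  have heq : {ω | ∀ t ≤ a, 0 < Y t ω} =
      ⋃ j : ℕ, ⋂ q : ℕ, {ω | 1 / ((j : ℝ) + 1) ≤
        Y (min (TopologicalSpace.denseSeq ℝ≥0 q) a) ω} := by
    ext ω
    simp only [Set.mem_ofPred_eq, Set.mem_iUnion, Set.mem_iInter]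
    constructor
    · intro h
      obtain ⟨t₀, ht₀, hmin⟩ := (isCompact_Icc (a := (0 : ℝ≥0)) (b := a)).exists_isMinOn
        ⟨0, by simp⟩ (hc ω).continuousOn
      obtain ⟨j, hj⟩ := exists_nat_one_div_lt (h t₀ ht₀.2)
      refine ⟨j, fun q ↦ hj.le.trans (hmin ⟨zero_le, min_le_right _ _⟩)⟩
    · rintro ⟨j, hj⟩ t ht
      have h1 : (1 : ℝ) / ((j : ℝ) + 1) ≤ Y (min t a) ω := by
        have hcl : IsClosed {t : ℝ≥0 | 1 / ((j : ℝ) + 1) ≤ Y (min t a) ω} :=
          isClosed_le continuous_const ((hc ω).comp (continuous_id.min continuous_const))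
        have hd : Dense {t : ℝ≥0 | 1 / ((j : ℝ) + 1) ≤ Y (min t a) ω} := by
          refine (TopologicalSpace.denseRange_denseSeq ℝ≥0).mono ?_
          rintro _ ⟨q, rfl⟩
          exact hj q
        have : {t : ℝ≥0 | 1 / ((j : ℝ) + 1) ≤ Y (min t a) ω} = Set.univ := by
          rw [← hcl.closure_eq, hd.closure_eq]
        have h2 : t ∈ {t : ℝ≥0 | 1 / ((j : ℝ) + 1) ≤ Y (min t a) ω} := by
          rw [this]; trivial
        exact h2
      rw [min_eq_left ht] at h1
      refine lt_of_lt_of_le ?_ h1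
      positivity
  rw [heq]
  refine MeasurableSet.iUnion fun j ↦ MeasurableSet.iInter fun q ↦ ?_
  exact measurableSet_le measurable_const (hY _ (min_le_right _ _))

lemma aux_measurable_Xn (n : ℕ) (T : ℝ≥0) (w : ℝ≥0 → α → ℝ) (t : ℝ≥0)
    (h : Measurable (w t)) : Measurable fun ω ↦ Xn n T (fun s ↦ w s ω) t := by
  unfold Xn
  exact Measurable.const_add (h.const_mul _) _

end Aux

variable {Ω : Type*} {mΩ : MeasurableSpace Ω} {ℱ : Filtration ℝ≥0 mΩ}

/-- `a < τ` is decided at time `a`. -/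
lemma measurableSet_lt_tau {T : ℝ≥0} (hT : 0 < T) {w : ℝ≥0 → Ω → ℝ}
    (hw : ∀ t, Measurable[ℱ t] (w t)) (hc : ∀ ω, Continuous fun t ↦ w t ω) (a : ℝ≥0) :
    MeasurableSet[ℱ a] {ω | a < tau T (fun t ↦ w t ω)} := by
  by_cases ha : a < T
  · obtain ⟨n, hn⟩ := exists_le_u ha
    have heq : {ω | a < tau T (fun t ↦ w t ω)} =
        {ω | ∀ t ≤ a, 0 < Xn n T (fun t ↦ w t ω) t} := by
      ext ω
      constructor
      · intro h t ht
        rw [← X_eq_Xn _ hT (ht.trans hn)]
        exact X_pos_of_lt_tau hT (hc ω) (lt_of_le_of_lt ht h)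
      · intro h
        by_contra hle
        have hle' : tau T (fun t ↦ w t ω) ≤ a := not_lt.1 hle
        have h1 := h _ hle'
        rw [← X_eq_Xn _ hT (hle'.trans hn)] at h1
        exact absurd (X_tau_nonpos hT (hc ω)) (not_le.2 h1)
    rw [heq]
    refine @aux_measurableSet_pos Ω (ℱ a) a (fun t ω ↦ Xn n T (fun t ↦ w t ω) t) ?_ ?_
    · intro t ht
      have h1 : Measurable[ℱ a] (w t) := (hw t).mono (ℱ.mono ht) le_rfl
      exact @aux_measurable_Xn Ω (ℱ a) n T w t h1
    · intro ω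
      exact continuous_Xn n T (hc ω)
  · have : {ω | a < tau T (fun t ↦ w t ω)} = ∅ := by
      ext ω
      simp only [Set.mem_ofPred_eq, Set.mem_empty_iff_false, iff_false, not_lt]
      exact (tau_lt hT (hc ω)).le.trans (not_lt.1 ha)
    rw [this]
    exact @MeasurableSet.empty _ (ℱ a)

section Stop

variable {τ : Ω → ℝ≥0} (hτ : ∀ a : ℝ≥0, MeasurableSet[ℱ a] {ω | a < τ ω})

include hτ

lemma measurable_min_tau (i : ℝ≥0) : Measurable[ℱ i] fun ω ↦ min (τ ω) i :=
  @aux_measurable_min Ω (ℱ i) i τ fun a ha ↦ (ℱ.mono ha.le) _ (hτ a)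

lemma progressive_min : IsStronglyProgressive ℱ fun t ω ↦ min t (τ ω) := by
  refine StronglyAdapted.isStronglyProgressive_of_continuous ?_ ?_
  · intro t
    have h : Measurable[ℱ t] fun ω ↦ min t (τ ω) := by
      simpa only [min_comm] using measurable_min_tau hτ t
    exact h.stronglyMeasurable
  · intro ω
    fun_prop

lemma progressive_min_min (a : ℝ≥0) :
    IsStronglyProgressive ℱ fun t ω ↦ min (min t (τ ω)) a := by
  refine StronglyAdapted.isStronglyProgressive_of_continuous ?_ ?_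
  · intro t
    have h : Measurable[ℱ t] fun ω ↦ min t (τ ω) := by
      simpa only [min_comm] using measurable_min_tau hτ t
    exact (Measurable.min h measurable_const).stronglyMeasurable
  · intro ω
    fun_prop

lemma progressive_J {T : ℝ≥0} (hT : ∀ ω, τ ω < T) (c : ℕ → ℝ) {v : ℝ≥0 → Ω → ℝ}
    (hv : IsStronglyProgressive ℱ v) :
    IsStronglyProgressive ℱ fun t ω ↦ J c T (τ ω) (fun s ↦ v s ω) t := by
  refine isStronglyProgressive_of_tendsto (U := fun n t ω ↦ ∑ k ∈ range n,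
    c k * (v (min t (τ ω)) ω - v (min (min t (τ ω)) (u T k)) ω)) ?_ ?_
  · intro n
    refine IsStronglyProgressive.finsetSum fun k _ ↦ ?_
    refine (isStronglyProgressive_const ℱ (c k)).mul ?_
    refine IsStronglyProgressive.sub ?_ ?_
    · exact hv.comp (progressive_min hτ) (fun i ω ↦ min_le_left _ _)
    · exact hv.comp (progressive_min_min hτ (u T k))
        (fun i ω ↦ (min_le_left _ _).trans (min_le_left _ _))
  · rw [tendsto_pi_nhds]
    intro t
    rw [tendsto_pi_nhds]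
    intro ω
    refine tendsto_const_nhds.congr' ?_
    filter_upwards [eventually_ge_atTop (NN T (τ ω))] with n hn
    exact J_eq (hT ω) _ _ hn

lemma progressive_K {T : ℝ≥0} (hT : ∀ ω, τ ω < T) (c : ℕ → ℝ) {d : ℕ} (i₀ : Fin d) :
    IsStronglyProgressive ℱ fun s ω ↦ K c T (τ ω) s • e i₀ := by
  have h1 : IsStronglyProgressive ℱ fun s ω ↦ K c T (τ ω) s := by
    refine isStronglyProgressive_of_tendsto (U := fun n s ω ↦ ∑ k ∈ range n,
      (Ico (u T k) (τ ω)).indicator (fun _ ↦ c k) s) ?_ ?_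
    · intro n
      refine IsStronglyProgressive.finsetSum fun k _ ↦ ?_
      intro i
      have h2 := @aux_measurableSet Ω (ℱ i) i τ (measurable_min_tau hτ i) (hτ i) (u T k)
      have h3 : StronglyMeasurable[Subtype.instMeasurableSpace.prod (ℱ i)]
          (({p : Set.Iic i × Ω | u T k ≤ (p.1 : ℝ≥0) ∧ (p.1 : ℝ≥0) < τ p.2}).indicator
            (fun _ ↦ c k)) := by
        refine StronglyMeasurable.indicator ?_ h2
        exact @stronglyMeasurable_const _ _ (Subtype.instMeasurableSpace.prod (ℱ i)) _ _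
      exact h3
    · rw [tendsto_pi_nhds]
      intro t
      rw [tendsto_pi_nhds]
      intro ω
      refine tendsto_const_nhds.congr' ?_
      filter_upwards [eventually_ge_atTop (NN T (τ ω))] with n hn
      exact K_eq (hT ω) _ hn
  intro i
  exact (h1 i).smul_const (e i₀)

lemma measurable_tau {T : ℝ≥0} (hT : ∀ ω, τ ω < T) : Measurable τ := by
  have h := measurable_min_tau hτ T
  have h2 : (fun ω ↦ min (τ ω) T) = τ := by
    ext ω
    rw [min_eq_left (hT ω).le]
  rw [h2] at h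
  exact h.mono (ℱ.le T) le_rfl

end Stop

end Pool.Agent.Lib.MP_3fc9e2_pr
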